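import Pool.Agent.Helper97.CC.CutMain

/-!
The induction: contract a minimal small set, or split off at a vertex.
-/

set_option autoImplicit false
set_option linter.unusedSectionVars false

namespace Pool.Agent.Helper97.CC

open Finset Pool.Agent.Helper55.Rota

section vec

variable {E : Type} [Fintype E] [DecidableEq E] {W : Type} [AddCommGroup W] [Module (ZMod 2) W]

lemma countP_sum (L : List (Finset E)) (e : E) :
    L.countP (fun F => e ∈ F) = (L.map (fun F => ind F e)).sum := by
  induction L with
  | nil => simp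
  | cons F L ih =>
    rw [List.countP_cons, ih, List.map_cons, List.sum_cons]
    by_cases h : e ∈ F <;> simp [ind, h, add_comm]

lemma decT_fn {x : E → W} {w : E → ℕ} {n : ℕ} (y : Fin n → W) (h : DecT x w (List.ofFn y)) :
    ∃ F : Fin n → Finset E, (∀ i, ∑ e ∈ F i, x e = y i) ∧ ∀ e, w e = ∑ i, ind (F i) e := by
  obtain ⟨L, h1, h2⟩ := h
  have hl : L.length = n := by
    have := congrArg List.length h1
    simpa using this
  subst hl
  refine ⟨fun i => L.get i, ?_, ?_⟩
  · intro i
    have h3 : (L.map (fun F => ∑ e ∈ F, x e)) = List.ofFn (fun i => ∑ e ∈ L.get i, x e) := by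
      apply List.ext_getElem
      · simp
      · intro k hk1 hk2
        simp
    rw [h3] at h1
    have := List.ofFn_injective h1
    exact congrFun this i
  · intro e
    rw [h2 e, countP_sum]
    have h3 : L.map (fun F => ind F e) = List.ofFn (fun i => ind (L.get i) e) := by
      apply List.ext_getElem
      · simp
      · intro k hk1 hk2
        simp
    rw [h3, List.sum_ofFn]

lemma par_sum (x : E → W) {n : ℕ} (A : Fin n → Finset E) (p : E → ℕ) (h : ∀ e, p e = ∑ i, ind (A i) e) :
    par x p = ∑ i, ∑ e ∈ A i, x e := by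
  have h1 : ∀ i, ∑ e ∈ A i, x e = ∑ e, ind (A i) e • x e := fun i => (par_ind x (A i)).symm
  simp only [h1]
  rw [sum_comm]
  unfold par
  apply sum_congr rfl
  intro e _
  rw [h e, sum_smul]

end vec

variable {V E : Type} [Fintype V] [DecidableEq V] [Fintype E] [DecidableEq E]

/-- contraction of `X` to `x0` -/
def kap (X : Finset V) (x0 : V) (v : V) : V := if v ∈ X then x0 else v

/-- the pushforward of vectors -/
noncomputable def push (k : V → V) : (V → ZMod 2) →ₗ[ZMod 2] (V → ZMod 2) :=
  Fintype.linearCombination (ZMod 2) (fun u => (Pi.single (k u) 1 : V → ZMod 2))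

lemma push_single (k : V → V) (u : V) : push k (Pi.single u 1) = Pi.single (k u) 1 := by
  unfold push
  rw [Fintype.linearCombination_apply_single, one_smul]

lemma push_par (k : V → V) (s t : E → V) (p : E → ℕ) :
    push k (par (inc s t) p) = par (inc (k ∘ s) (k ∘ t)) p := by
  unfold par
  rw [map_sum]
  apply sum_congr rfl
  intro e _
  rw [map_nsmul]
  unfold inc
  rw [map_add, push_single, push_single]
  rfl

/-- the contraction step -/
theorem contract_step (s t : E → V) (p : E → ℕ) (m : ℕ) (hm : 1 ≤ m) (hpm : ∀ e, p e ≤ m)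
    (hp : par (inc s t) p = 0) (hC : CC s t p m) (X : Finset V) (x0 : V) (hx0 : x0 ∈ X)
    (hX : cut s t p X < 4 * m) (hsmall : ∀ Y ⊆ X, Y ≠ X → Y.Nonempty → 4 * m ≤ cut s t p Y)
    (ih : ∀ (s' t' : E → V) (p' : E → ℕ), (∀ e, p' e = if s e ∈ X ∧ t e ∈ X then 0 else p e) →
      par (inc s' t') p' = 0 → CC s' t' p' m → Sl s' t' p' (slots m)) :
    Sl s t p (slots m) := by
  classical
  set D : Finset E := univ.filter (fun f => s f ∈ X ∧ t f ∈ X) with hD
  have memD : ∀ e, e ∈ D ↔ s e ∈ X ∧ t e ∈ X := by intro e; simp [hD]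
  set κ := kap X x0 with hκ
  set s' := κ ∘ s with hs'
  set t' := κ ∘ t with ht'
  set p' : E → ℕ := fun e => if s e ∈ X ∧ t e ∈ X then 0 else p e with hp'
  have hpart := part_ineq s t p m X hX hsmall
  -- connectivity
  have hconn : ∀ u ∈ X, (Pi.single u 1 + Pi.single x0 1 : V → ZMod 2) ∈ sp (inc s t) D := by
    obtain ⟨c, hc1, hc2⟩ := labels s t D
    have h1 := hpart c
    have h2 : ∑ f ∈ univ.filter (fun f => s f ∈ X ∧ t f ∈ X ∧ c (s f) ≠ c (t f)), p f = 0 := by
      apply sum_eq_zero
      intro f hf
      rw [mem_filter] at hf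
      exact absurd (hc1 f ((memD f).2 ⟨hf.2.1, hf.2.2.1⟩)) hf.2.2.2
    rw [h2] at h1
    have h3 : (X.image c).card - 1 = 0 := by
      rcases Nat.eq_zero_or_pos ((X.image c).card - 1) with h | h
      · exact h
      · have : 0 < 2 * m * ((X.image c).card - 1) := by positivity
        omega
    intro u hu
    apply hc2
    have h4 : (X.image c).card ≤ 1 := by omega
    exact card_le_one.1 h4 _ (mem_image_of_mem c hu) _ (mem_image_of_mem c hx0)
  have hkap : ∀ v, (Pi.single v 1 + Pi.single (κ v) 1 : V → ZMod 2) ∈ sp (inc s t) D := by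
    intro v
    by_cases hv : v ∈ X
    · have : κ v = x0 := by rw [hκ]; unfold kap; rw [if_pos hv]
      rw [this]; exact hconn v hv
    · have : κ v = v := by rw [hκ]; unfold kap; rw [if_neg hv]
      rw [this, add_self' (Pi.single v 1 : V → ZMod 2)]
      exact Submodule.zero_mem _
  have hincT : ∀ e, inc s t e + inc s' t' e ∈ sp (inc s t) D := by
    intro e
    have h1 : inc s t e + inc s' t' e
        = (Pi.single (s e) 1 + Pi.single (κ (s e)) 1) + (Pi.single (t e) 1 + Pi.single (κ (t e)) 1) := by
      unfold inc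
      rw [hs', ht']
      simp only [Function.comp]
      abel
    rw [h1]
    exact Submodule.add_mem _ (hkap _) (hkap _)
  -- the contracted instance
  have hin : ∀ e, s e ∈ X ∧ t e ∈ X → inc s' t' e = 0 := by
    intro e he
    unfold inc
    have h1 : s' e = x0 := by
      rw [hs', hκ]; simp only [Function.comp]; unfold kap; rw [if_pos he.1]
    have h2 : t' e = x0 := by
      rw [ht', hκ]; simp only [Function.comp]; unfold kap; rw [if_pos he.2]
    rw [h1, h2]
    exact add_self' _
  have hpar' : par (inc s' t') p' = 0 := by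
    have h1 : par (inc s' t') p' = par (inc s' t') p := by
      unfold par
      apply sum_congr rfl
      intro e _
      by_cases he : s e ∈ X ∧ t e ∈ X
      · rw [hin e he, smul_zero, smul_zero]
      · rw [hp']; simp only [he, if_false]
    rw [h1, hs', ht', ← push_par, hp, map_zero]
  have hcr : ∀ (Z : Finset V) (e : E), Cr s' t' Z e ↔ Cr s t (univ.filter (fun v => κ v ∈ Z)) e := by
    intro Z e
    unfold Cr
    rw [hs', ht']
    simp only [Function.comp, mem_filter, mem_univ, true_and]
  have hnc : ∀ (Z : Finset V) (e : E), s e ∈ X ∧ t e ∈ X → ¬ Cr s' t' Z e := by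
    intro Z e he
    unfold Cr
    have h1 : s' e = x0 := by
      rw [hs', hκ]; simp only [Function.comp]; unfold kap; rw [if_pos he.1]
    have h2 : t' e = x0 := by
      rw [ht', hκ]; simp only [Function.comp]; unfold kap; rw [if_pos he.2]
    rw [h1, h2]; simp
  have hCC' : CC s' t' p' m := by
    intro Z hZ
    have h1 : cut s' t' p' Z = cut s t p (univ.filter (fun v => κ v ∈ Z)) := by
      unfold cut
      apply sum_congr rfl
      intro e _
      by_cases he : s e ∈ X ∧ t e ∈ X
      · have h2 := hnc Z e he
        rw [if_neg h2, if_neg (fun h => h2 ((hcr Z e).2 h))]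
      · rw [if_congr (hcr Z e) rfl rfl, hp']; simp only [he, if_false]
    rw [h1]
    apply hC
    obtain ⟨e, he1, he2⟩ := hZ
    refine ⟨e, ?_, (hcr Z e).1 he2⟩
    by_cases he : s e ∈ X ∧ t e ∈ X
    · exact absurd he2 (hnc Z e he)
    · rw [hp'] at he1; simp only [he, if_false] at he1; exact he1
  obtain ⟨A, hA1, hA2⟩ := ih s' t' p' (fun e => rfl) hpar' hCC'
  -- targets
  set y : Fin (slots m) → (V → ZMod 2) := fun i => ∑ e ∈ A i, inc s t e with hy
  have hyT : ∀ i, y i ∈ sp (inc s t) D := by
    intro i
    have h1 : y i = ∑ e ∈ A i, (inc s t e + inc s' t' e) := by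
      rw [sum_add_distrib, hA1 i, add_zero]
    rw [h1]
    exact Submodule.sum_mem _ (fun e _ => hincT e)
  set w : E → ℕ := fun e => if s e ∈ X ∧ t e ∈ X then p e else 0 with hw
  have hwp : par (inc s t) w = ∑ i, y i := by
    have h1 : p = fun e => w e + p' e := by
      funext e
      rw [hw, hp']
      by_cases he : s e ∈ X ∧ t e ∈ X
      · simp only [he, and_self, if_true, add_zero]
      · simp only [he, if_false, zero_add]
    have h2 := hp
    rw [h1, par_add, par_sum (inc s t) A p' hA2] at h2
    have h3 : par (inc s t) w + ∑ i, y i = ∑ i, y i + ∑ i, y i := by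
      rw [add_self' (∑ i, y i)]; exact h2
    exact add_right_cancel h3
  have hstr : Strong (vr (inc s t)) w m D := by
    have h1 := strong_of s t p m X ⟨x0, hx0⟩ hpart
    intro F hF
    have h2 := h1 F hF
    have h3 : ∑ e ∈ D \ F, w e = ∑ e ∈ D \ F, p e := by
      apply sum_congr rfl
      intro e he
      rw [hw]
      simp only [(memD e).1 (mem_sdiff.1 he).1, and_self, if_true]
    rw [h3]; exact h2
  have hpiece := piece (inc s t) w m hm D
    (by
      intro e
      rw [hw]
      by_cases he : s e ∈ X ∧ t e ∈ X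
      · simp only [he, and_self, if_true]; exact hpm e
      · simp only [he, if_false]; exact Nat.zero_le _)
    (by
      intro e he
      rw [memD] at he
      rw [hw]
      simp only [he, if_false])
    hstr (List.ofFn y) (by simp)
    (by
      intro z hz
      rw [List.mem_ofFn] at hz
      obtain ⟨i, rfl⟩ := hz
      exact hyT i)
    (by rw [hwp, List.sum_ofFn])
  obtain ⟨F, hF1, hF2⟩ := decT_fn y hpiece
  have hAout : ∀ i, ∀ e ∈ A i, ¬ (s e ∈ X ∧ t e ∈ X) := by
    intro i e he hin'
    have h1 := hA2 e
    have h2 : ind (A i) e ≤ ∑ i, ind (A i) e :=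
      single_le_sum (f := fun i => ind (A i) e) (fun _ _ => Nat.zero_le _) (mem_univ i)
    rw [ind_pos he] at h2
    rw [hp'] at h1
    simp only [hin', and_self, if_true] at h1
    omega
  have hFin : ∀ i, ∀ e ∈ F i, s e ∈ X ∧ t e ∈ X := by
    intro i e he
    by_contra hout
    have h1 := hF2 e
    have h2 : ind (F i) e ≤ ∑ i, ind (F i) e :=
      single_le_sum (f := fun i => ind (F i) e) (fun _ _ => Nat.zero_le _) (mem_univ i)
    rw [ind_pos he] at h2
    rw [hw] at h1
    simp only [hout, if_false] at h1
    omega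
  have hdis : ∀ i, Disjoint (A i) (F i) := fun i =>
    Finset.disjoint_left.2 (fun e he he' => hAout i e he (hFin i e he'))
  refine ⟨fun i => A i ∪ F i, ?_, ?_⟩
  · intro i
    rw [sum_union (hdis i), hF1 i]
    exact add_self' (y i)
  · intro e
    have h1 : ∀ i, ind (A i ∪ F i) e = ind (A i) e + ind (F i) e := by
      intro i
      by_cases h : e ∈ A i
      · have h' : e ∉ F i := (Finset.disjoint_left.1 (hdis i)) h
        simp [ind, h, h']
      · by_cases h' : e ∈ F i <;> simp [ind, h, h']
    simp only [h1]
    rw [sum_add_distrib, ← hA2 e, ← hF2 e, hp', hw]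
    by_cases he : s e ∈ X ∧ t e ∈ X
    · simp only [he, and_self, if_true, zero_add]
    · simp only [he, if_false, add_zero]

/-- the main theorem on even sets -/
theorem cut_main (m : ℕ) (hm : 1 ≤ m) : ∀ n : ℕ, ∀ (s t : E → V) (p : E → ℕ), ∑ e, p e = n →
    (∀ e, p e ≤ m) → par (inc s t) p = 0 → CC s t p m → Sl s t p (slots m) := by
  classical
  intro n
  induction n using Nat.strong_induction_on with
  | _ n ih =>
    intro s t p hn hpm hp hC
    by_cases hz : ∀ e, p e = 0
    · exact ⟨fun _ => ∅, fun i => by simp, fun e => by rw [hz e]; simp [ind]⟩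
    push Not at hz
    obtain ⟨e0, he0⟩ := hz
    -- the vertices with an edge
    set U : Finset V := univ.filter (fun v => ∃ e, p e ≠ 0 ∧ (s e = v ∨ t e = v)) with hU
    have hcutU : cut s t p U = 0 := by
      unfold cut
      apply sum_eq_zero
      intro e _
      split_ifs with h
      · by_contra hpe
        apply h
        have h1 : s e ∈ U := by rw [hU, mem_filter]; exact ⟨mem_univ _, e, hpe, Or.inl rfl⟩
        have h2 : t e ∈ U := by rw [hU, mem_filter]; exact ⟨mem_univ _, e, hpe, Or.inr rfl⟩
        simp [h1, h2]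
      · rfl
    set 𝒮 : Finset (Finset V) := univ.filter (fun X => X ⊆ U ∧ X.Nonempty ∧ cut s t p X < 4 * m) with h𝒮
    have hne : 𝒮.Nonempty := by
      refine ⟨U, ?_⟩
      rw [h𝒮, mem_filter]
      refine ⟨mem_univ _, Subset.refl _, ⟨s e0, ?_⟩, by omega⟩
      rw [hU, mem_filter]; exact ⟨mem_univ _, e0, he0, Or.inl rfl⟩
    obtain ⟨X, hX, hXmin⟩ := exists_min_image 𝒮 card hne
    rw [h𝒮, mem_filter] at hX
    obtain ⟨_, hXU, hXne, hXc⟩ := hX
    have hsmall : ∀ Y ⊆ X, Y ≠ X → Y.Nonempty → 4 * m ≤ cut s t p Y := by
      intro Y hY hYX hYne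
      by_contra hcon
      have h1 : Y ∈ 𝒮 := by
        rw [h𝒮, mem_filter]
        exact ⟨mem_univ _, hY.trans hXU, hYne, by omega⟩
      have h2 := hXmin Y h1
      exact hYX (eq_of_subset_of_card_le hY h2)
    by_cases hin : ∃ e, p e ≠ 0 ∧ s e ∈ X ∧ t e ∈ X
    · obtain ⟨e1, he1, hs1, ht1⟩ := hin
      refine contract_step s t p m hm hpm hp hC X (s e1) hs1 hXc hsmall ?_
      intro s' t' p' hp' hpar' hCC'
      have hle : ∀ e, p' e ≤ p e := by
        intro e; rw [hp' e]; split_ifs <;> omega
      have hlt : ∑ e, p' e < n := by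
        rw [← hn]
        apply sum_lt_sum (fun e _ => hle e)
        refine ⟨e1, mem_univ _, ?_⟩
        rw [hp' e1, if_pos ⟨hs1, ht1⟩]
        omega
      exact ih _ hlt s' t' p' rfl (fun e => (hle e).trans (hpm e)) hpar' hCC'
    · push Not at hin
      -- X is a single vertex
      have hcard : X.card = 1 := by
        by_contra hcard
        obtain ⟨v, hv⟩ := hXne
        have h2 : 2 ≤ X.card := by
          have : 0 < X.card := card_pos.2 ⟨v, hv⟩
          omega
        set c : V → ℕ := fun u => (Fintype.equivFin V u).val with hc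
        have hcinj : Function.Injective c := Fin.val_injective.comp (Fintype.equivFin V).injective
        have h3 := part_ineq s t p m X hXc hsmall c
        rw [card_image_of_injective _ hcinj] at h3
        have h4 : ∑ f ∈ univ.filter (fun f => s f ∈ X ∧ t f ∈ X ∧ c (s f) ≠ c (t f)), p f = 0 := by
          apply sum_eq_zero
          intro f hf
          rw [mem_filter] at hf
          by_contra hpf
          exact hin f hpf hf.2.1 hf.2.2.1
        rw [h4] at h3
        have h5 : 0 < 2 * m * (X.card - 1) := by
          have : 0 < X.card - 1 := by omega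
          positivity
        omega
      obtain ⟨v, rfl⟩ := card_eq_one.1 hcard
      have hloop : ∀ e, p e ≠ 0 → ¬ (s e = v ∧ t e = v) := by
        rintro e he ⟨h1, h2⟩
        exact hin e he (by simp [h1]) (by simp [h2])
      have hvU : v ∈ U := hXU (by simp)
      rw [hU, mem_filter] at hvU
      obtain ⟨_, g, hg, hgv⟩ := hvU
      have hpos : 0 < cut s t p {v} := by
        have h1 : Cr s t {v} g := (cr_single s t v g).2 ⟨hgv, hloop g hg⟩
        unfold cut
        refine lt_of_lt_of_le (Nat.pos_of_ne_zero hg) ?_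
        have := single_le_sum (f := fun e => if Cr s t {v} e then p e else 0) (fun _ _ => Nat.zero_le _)
          (mem_univ g)
        simpa [h1] using this
      obtain ⟨e, f, hef, hpe, hpf, hce, hcf, hCC'⟩ := split_cc s t p m hp hC v hXc hpos hloop
      refine split_lift s t p v e f hef hpe hpf hce hcf _ ?_
      have hlt : ∑ e, Function.update p f 0 e < n := by
        rw [← hn]
        apply sum_lt_sum
        · intro g _
          by_cases hgf : g = f
          · rw [hgf, Function.update_self]; exact Nat.zero_le _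
          · rw [Function.update_of_ne hgf]
        · refine ⟨f, mem_univ _, ?_⟩
          rw [Function.update_self, hpf]; omega
      refine ih _ hlt _ _ _ rfl ?_ ?_ hCC'
      · intro g
        by_cases hgf : g = f
        · rw [hgf, Function.update_self]; exact Nat.zero_le _
        · rw [Function.update_of_ne hgf]; exact hpm g
      · rw [par_split s t p v e f hef hpe hpf hce hcf]; exact hp

end Pool.Agent.Helper97.CC
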