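import Pool.Agent.Helper97.CC.Cuts

/-!
The cut condition `p(C) ≥ 4 m` for every cut `C` with an edge of weight at least 2, `m ≥ max p`, gives a
decomposition of an even weight into `slots m` even sets.
-/

set_option autoImplicit false
set_option linter.unusedSectionVars false

namespace Pool.Agent.Helper97.CC

open Finset Pool.Agent.Helper55.Rota

variable {V E : Type} [Fintype V] [DecidableEq V] [Fintype E] [DecidableEq E]

/-- `p` is a sum of `n` even sets -/
def Sl (s t : E → V) (p : E → ℕ) (n : ℕ) : Prop :=
  ∃ A : Fin n → Finset E, (∀ i, ∑ e ∈ A i, inc s t e = 0) ∧ ∀ e, p e = ∑ i, ind (A i) e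

lemma par_split (s t : E → V) (p : E → ℕ) (v : V) (e f : E) (hef : e ≠ f) (hpe : p e = 1) (hpf : p f = 1)
    (hce : Cr s t {v} e) (hcf : Cr s t {v} f) :
    par (inc (Function.update s e (oth s t v e)) (Function.update t e (oth s t v f))) (Function.update p f 0)
      = par (inc s t) p := by
  unfold par
  rw [sum_two _ e f hef, sum_two (fun g => p g • inc s t g) e f hef]
  have h1 : ∑ g ∈ (univ.erase e).erase f, Function.update p f 0 g •
      inc (Function.update s e (oth s t v e)) (Function.update t e (oth s t v f)) g
      = ∑ g ∈ (univ.erase e).erase f, p g • inc s t g := by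
    apply sum_congr rfl
    intro g hg
    rw [mem_erase, mem_erase] at hg
    unfold inc
    rw [Function.update_of_ne hg.1, Function.update_of_ne hg.2.1, Function.update_of_ne hg.2.1]
  rw [h1, Function.update_self, Function.update_of_ne hef, hpe, hpf]
  have h2 : inc (Function.update s e (oth s t v e)) (Function.update t e (oth s t v f)) e
      = Pi.single (oth s t v e) 1 + Pi.single (oth s t v f) 1 := by
    unfold inc
    rw [Function.update_self, Function.update_self]
  have h3 := oth_inc s t v e ((cr_single s t v e).1 hce).1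
  have h4 := oth_inc s t v f ((cr_single s t v f).1 hcf).1
  rw [h2, h3, h4]
  have h5 := add_self' (Pi.single v 1 : V → ZMod 2)
  have h6 : (Pi.single v 1 + Pi.single (oth s t v e) 1 + (Pi.single v 1 + Pi.single (oth s t v f) 1)
      : V → ZMod 2) = Pi.single (oth s t v e) 1 + Pi.single (oth s t v f) 1 := by
    calc (Pi.single v 1 + Pi.single (oth s t v e) 1 + (Pi.single v 1 + Pi.single (oth s t v f) 1) : V → ZMod 2)
        = (Pi.single v 1 + Pi.single v 1) + (Pi.single (oth s t v e) 1 + Pi.single (oth s t v f) 1) := by abel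
      _ = _ := by rw [h5, zero_add]
  simp only [one_smul, zero_smul, add_zero]
  rw [h6]

lemma split_lift (s t : E → V) (p : E → ℕ) (v : V) (e f : E) (hef : e ≠ f) (hpe : p e = 1) (hpf : p f = 1)
    (hce : Cr s t {v} e) (hcf : Cr s t {v} f) (n : ℕ)
    (h : Sl (Function.update s e (oth s t v e)) (Function.update t e (oth s t v f)) (Function.update p f 0) n) :
    Sl s t p n := by
  obtain ⟨A, hA1, hA2⟩ := h
  have hfA : ∀ i, f ∉ A i := by
    intro i hi
    have h1 := hA2 f
    rw [Function.update_self] at h1
    have h2 : ind (A i) f ≤ ∑ i, ind (A i) f :=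
      single_le_sum (f := fun i => ind (A i) f) (fun _ _ => Nat.zero_le _) (mem_univ i)
    rw [ind_pos hi] at h2
    omega
  have hinc : ∀ g, g ≠ e → inc (Function.update s e (oth s t v e)) (Function.update t e (oth s t v f)) g
      = inc s t g := by
    intro g hg
    unfold inc
    rw [Function.update_of_ne hg, Function.update_of_ne hg]
  refine ⟨fun i => if e ∈ A i then insert f (A i) else A i, ?_, ?_⟩
  · intro i
    by_cases hi : e ∈ A i
    · simp only [hi, if_true]
      rw [sum_insert (hfA i), ← add_sum_erase _ _ hi]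
      have h1 := hA1 i
      rw [← add_sum_erase _ _ hi] at h1
      have h2 : ∑ g ∈ (A i).erase e, inc (Function.update s e (oth s t v e))
          (Function.update t e (oth s t v f)) g = ∑ g ∈ (A i).erase e, inc s t g :=
        sum_congr rfl (fun g hg => hinc g (mem_erase.1 hg).1)
      rw [h2] at h1
      have h3 : inc (Function.update s e (oth s t v e)) (Function.update t e (oth s t v f)) e
          = Pi.single (oth s t v e) 1 + Pi.single (oth s t v f) 1 := by
        unfold inc
        rw [Function.update_self, Function.update_self]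
      rw [h3] at h1
      rw [oth_inc s t v e ((cr_single s t v e).1 hce).1, oth_inc s t v f ((cr_single s t v f).1 hcf).1]
      have h5 := add_self' (Pi.single v 1 : V → ZMod 2)
      calc (Pi.single v 1 + Pi.single (oth s t v f) 1 + (Pi.single v 1 + Pi.single (oth s t v e) 1
            + ∑ g ∈ (A i).erase e, inc s t g) : V → ZMod 2)
          = (Pi.single v 1 + Pi.single v 1) + (Pi.single (oth s t v e) 1 + Pi.single (oth s t v f) 1
            + ∑ g ∈ (A i).erase e, inc s t g) := by abel
        _ = 0 := by rw [h5, h1, zero_add]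
    · simp only [hi, if_false]
      rw [← hA1 i]
      exact sum_congr rfl (fun g hg => (hinc g (fun h => hi (h ▸ hg))).symm)
  · intro g
    by_cases hg : g = f
    · subst hg
      have h1 := hA2 e
      rw [Function.update_of_ne hef, hpe] at h1
      rw [hpf, h1]
      apply sum_congr rfl
      intro i _
      by_cases hi : e ∈ A i
      · simp [ind, hi]
      · simp [ind, hi, hfA i]
    · have h1 := hA2 g
      rw [Function.update_of_ne hg] at h1
      rw [h1]
      apply sum_congr rfl
      intro i _
      by_cases hi : e ∈ A i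
      · simp [ind, hi, hg]
      · simp [ind, hi]

/-- the partition inequality for a minimal small set -/
theorem part_ineq (s t : E → V) (p : E → ℕ) (m : ℕ) (X : Finset V) (hX : cut s t p X < 4 * m)
    (hsmall : ∀ Y ⊆ X, Y ≠ X → Y.Nonempty → 4 * m ≤ cut s t p Y) (c : V → ℕ) :
    2 * m * ((X.image c).card - 1)
      ≤ ∑ f ∈ univ.filter (fun f => s f ∈ X ∧ t f ∈ X ∧ c (s f) ≠ c (t f)), p f := by
  classical
  by_cases hk : (X.image c).card ≤ 1
  · have : (X.image c).card - 1 = 0 := by omega
    rw [this, mul_zero]; exact Nat.zero_le _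
  have h1 : ∑ q ∈ X.image c, 4 * m ≤ ∑ q ∈ X.image c, cut s t p (X.filter (fun v => c v = q)) := by
    apply sum_le_sum
    intro q hq
    obtain ⟨u, hu, huq⟩ := mem_image.1 hq
    apply hsmall _ (filter_subset _ _)
    · intro heq
      have : X.image c ⊆ {q} := by
        intro q' hq'
        obtain ⟨u', hu', hu'q⟩ := mem_image.1 hq'
        rw [← heq, mem_filter] at hu'
        rw [mem_singleton, ← hu'q]; exact hu'.2
      have := card_le_card this
      rw [card_singleton] at this
      omega
    · exact ⟨u, mem_filter.2 ⟨hu, huq⟩⟩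
  have h2 : ∑ q ∈ X.image c, cut s t p (X.filter (fun v => c v = q)) ≤ cut s t p X
      + 2 * ∑ f ∈ univ.filter (fun f => s f ∈ X ∧ t f ∈ X ∧ c (s f) ≠ c (t f)), p f := by
    rw [sum_filter, mul_sum]
    unfold cut
    rw [sum_comm, ← sum_add_distrib]
    apply sum_le_sum
    intro e _
    have h3 : ∀ q ∈ X.image c, (if Cr s t (X.filter (fun v => c v = q)) e then p e else 0)
        ≤ (if q = c (s e) then (if s e ∈ X ∧ ¬ (t e ∈ X ∧ c (t e) = c (s e)) then p e else 0) else 0)
          + (if q = c (t e) then (if t e ∈ X ∧ ¬ (s e ∈ X ∧ c (s e) = c (t e)) then p e else 0) else 0) := by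
      intro q _
      have hcr : Cr s t (X.filter (fun v => c v = q)) e
          ↔ ¬ ((s e ∈ X ∧ c (s e) = q) ↔ (t e ∈ X ∧ c (t e) = q)) := by
        unfold Cr; simp only [mem_filter]
      rw [if_congr hcr rfl rfl]
      by_cases a1 : s e ∈ X <;> by_cases a2 : t e ∈ X <;> by_cases a3 : c (s e) = q <;>
        by_cases a4 : c (t e) = q <;> simp [a1, a2, a3, a4, eq_comm] <;> split_ifs <;> simp_all
    refine (sum_le_sum h3).trans ?_
    rw [sum_add_distrib, sum_ite_eq', sum_ite_eq']
    unfold Cr
    by_cases a1 : s e ∈ X <;> by_cases a2 : t e ∈ X <;> by_cases a3 : c (s e) = c (t e)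
    all_goals simp only [a1, a2, a3, eq_comm, true_and, false_and, and_true, not_true_eq_false, not_false_eq_true,
      if_true, if_false, ne_eq, iff_true, iff_false, mul_zero, add_zero, zero_add, ite_self, true_iff]
    all_goals (try split_ifs) <;> (try simp_all) <;> (try omega)
  rw [sum_const, smul_eq_mul] at h1
  obtain ⟨k, hk'⟩ : ∃ k, (X.image c).card = k + 1 := ⟨(X.image c).card - 1, by omega⟩
  rw [hk'] at h1 ⊢
  have e1 : (k + 1) * (4 * m) = 2 * (2 * m * k) + 4 * m := by ring
  have e2 : 2 * m * (k + 1 - 1) = 2 * m * k := by simp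
  rw [e2]
  rw [e1] at h1
  omega

end Pool.Agent.Helper97.CC
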