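import Pool.Agent.Helper97.CC.Strong

/-!
Graphs: circuits, even weights, the partition condition.
-/

set_option autoImplicit false
set_option linter.unusedSectionVars false

namespace Pool.Agent.Helper97.CC

open Finset Pool.Agent.Helper55.Rota

section circ

variable {E : Type} [Fintype E] [DecidableEq E] {W : Type} [AddCommGroup W] [Module (ZMod 2) W]

/-- minimal nonempty even sets -/
def Circ (x : E → W) (C : Finset E) : Prop :=
  C.Nonempty ∧ Ev x C ∧ ∀ D ⊆ C, D.Nonempty → Ev x D → D = C

lemma exists_circ (x : E → W) : ∀ (n : ℕ) (F : Finset E), F.card = n → F.Nonempty → Ev x F →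
    ∃ C ⊆ F, Circ x C := by
  intro n
  induction n using Nat.strong_induction_on with
  | _ n ih =>
    intro F hF hne hev
    by_cases h : ∀ D ⊆ F, D.Nonempty → Ev x D → D = F
    · exact ⟨F, Subset.refl _, hne, hev, h⟩
    · push Not at h
      obtain ⟨D, hD, hDne, hDev, hDF⟩ := h
      have hlt : D.card < F.card := card_lt_card (ssubset_of_subset_of_ne hD hDF)
      obtain ⟨C, hC, hCc⟩ := ih D.card (by omega) D rfl hDne hDev
      exact ⟨C, hC.trans hD, hCc⟩

lemma even_circ (x : E → W) : ∀ (n : ℕ) (F : Finset E), F.card = n → Ev x F →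
    ∃ L : List (Finset E), (∀ C ∈ L, Circ x C) ∧ ∀ e, ind F e = L.countP (fun C => e ∈ C) := by
  intro n
  induction n using Nat.strong_induction_on with
  | _ n ih =>
    intro F hF hev
    rcases F.eq_empty_or_nonempty with rfl | hne
    · exact ⟨[], by simp, fun e => by simp [ind]⟩
    · obtain ⟨C, hC, hCc⟩ := exists_circ x _ F rfl hne hev
      have hlt : (F \ C).card < F.card := by
        apply card_lt_card
        refine ⟨sdiff_subset, fun h => ?_⟩
        obtain ⟨e, he⟩ := hCc.1
        exact (mem_sdiff.1 (h (hC he))).2 he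
      have hev' : Ev x (F \ C) := by
        have h1 : ∑ e ∈ F \ C, x e + ∑ e ∈ C, x e = ∑ e ∈ F, x e := sum_sdiff hC
        have h2 : ∑ e ∈ C, x e = 0 := hCc.2.1
        have h3 : ∑ e ∈ F, x e = 0 := hev
        rw [h2, h3, add_zero] at h1
        exact h1
      obtain ⟨L, hL1, hL2⟩ := ih _ (by omega) (F \ C) rfl hev'
      refine ⟨C :: L, ?_, ?_⟩
      · intro D hD
        rcases List.mem_cons.1 hD with rfl | h
        · exact hCc
        · exact hL1 D h
      · intro e
        rw [List.countP_cons, ← hL2 e]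
        by_cases h1 : e ∈ C
        · have h2 := hC h1
          simp [ind, h1, h2]
        · by_cases h2 : e ∈ F <;> simp [ind, h1, h2]

/-- sums of even sets are sums of circuits -/
lemma dec_circ (x : E → W) (w : E → ℕ) (h : Dec x w) :
    ∃ L : List (Finset E), (∀ C ∈ L, Circ x C) ∧ ∀ e, w e = L.countP (fun C => e ∈ C) := by
  obtain ⟨L, hL1, hL2⟩ := h
  induction L generalizing w with
  | nil => exact ⟨[], by simp, hL2⟩
  | cons F L ih =>
    obtain ⟨L1, h1, h2⟩ := ih (fun e => L.countP (fun C => e ∈ C))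
      (fun C hC => hL1 C (List.mem_cons_of_mem _ hC)) (fun e => rfl)
    obtain ⟨L2, h3, h4⟩ := even_circ x _ F rfl (hL1 F List.mem_cons_self)
    refine ⟨L2 ++ L1, ?_, ?_⟩
    · intro C hC
      rcases List.mem_append.1 hC with h | h
      · exact h3 C h
      · exact h1 C h
    · intro e
      rw [List.countP_append, ← h4 e, ← h2 e, hL2 e, List.countP_cons]
      by_cases h : e ∈ F <;> simp [ind, h, add_comm]

/-- a sum of circuits is even -/
lemma circ_par (x : E → W) (L : List (Finset E)) (h : ∀ C ∈ L, Circ x C) :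
    par x (fun e => L.countP (fun C => e ∈ C)) = 0 := by
  induction L with
  | nil => simp [par]
  | cons C L ih =>
    have h1 : (fun e => (C :: L).countP (fun C => e ∈ C))
        = fun e => ind C e + (fun e => L.countP (fun C => e ∈ C)) e := by
      funext e
      rw [List.countP_cons]
      by_cases h : e ∈ C <;> simp [ind, h, add_comm]
    rw [h1, par_add, par_ind, ih (fun D hD => h D (List.mem_cons_of_mem _ hD)), add_zero]
    exact (h C List.mem_cons_self).2.1

end circ

section graph

variable {V E : Type} [Fintype V] [DecidableEq V] [Fintype E] [DecidableEq E]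

/-- incidence vector of the edge with ends `s e`, `t e` -/
def inc (s t : E → V) (e : E) : V → ZMod 2 := Pi.single (s e) 1 + Pi.single (t e) 1

lemma sum_apply_inc (s t : E → V) (w : E → ℕ) (v : V) :
    par (inc s t) w v = ((∑ e, w e * ((if s e = v then 1 else 0) + (if t e = v then 1 else 0)) : ℕ) : ZMod 2) := by
  unfold par inc
  rw [Finset.sum_apply]
  push_cast
  apply sum_congr rfl
  intro e _
  simp only [Pi.smul_apply, Pi.add_apply, Pi.single_apply, nsmul_eq_mul, eq_comm]

lemma par_iff (s t : E → V) (w : E → ℕ) :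
    par (inc s t) w = 0 ↔ ∀ v, Even (∑ e, w e * ((if s e = v then 1 else 0) + (if t e = v then 1 else 0))) := by
  rw [funext_iff]
  apply forall_congr'
  intro v
  rw [sum_apply_inc, Pi.zero_apply, ZMod.natCast_eq_zero_iff_even]

/-- labels of the components: two ends of an edge of `F` have the same label, vertices of the same label are
connected -/
theorem labels (s t : E → V) (F : Finset E) :
    ∃ c : V → ℕ, (∀ f ∈ F, c (s f) = c (t f)) ∧
      ∀ u v, c u = c v → (Pi.single u 1 + Pi.single v 1 : V → ZMod 2) ∈ sp (inc s t) F := by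
  classical
  set r : V → V → Prop := fun u v => ∃ f ∈ F, s f = u ∧ t f = v with hr
  set rep : V → V := fun u => (Quot.mk r u).out with hrep
  set c : V → ℕ := fun u => (Fintype.equivFin V (rep u)).val with hc
  refine ⟨c, ?_, ?_⟩
  · intro f hf
    have : Quot.mk r (s f) = Quot.mk r (t f) := Quot.sound ⟨f, hf, rfl, rfl⟩
    simp only [hc, hrep, this]
  · intro u v huv
    have h1 : rep u = rep v := by
      have := Fin.val_injective huv
      exact (Fintype.equivFin V).injective this
    have h2 : Quot.mk r u = Quot.mk r v := by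
      have hu : Quot.mk r (rep u) = Quot.mk r u := Quot.out_eq _
      have hv : Quot.mk r (rep v) = Quot.mk r v := Quot.out_eq _
      rw [← hu, ← hv, h1]
    have h3 : Relation.EqvGen r u v := Quot.eqvGen_exact h2
    clear h1 h2 huv
    induction h3 with
    | rel a b hab =>
      obtain ⟨f, hf, rfl, rfl⟩ := hab
      exact mem_sp (inc s t) hf
    | refl a =>
      rw [add_self' (Pi.single a 1 : V → ZMod 2)]
      exact Submodule.zero_mem _
    | symm a b _ ih => rw [add_comm]; exact ih
    | trans a b d _ _ ih1 ih2 =>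
      have h4 : (Pi.single a 1 + Pi.single d 1 : V → ZMod 2)
          = (Pi.single a 1 + Pi.single b 1) + (Pi.single b 1 + Pi.single d 1) := by
        have h5 := add_self' (Pi.single b 1 : V → ZMod 2)
        calc (Pi.single a 1 + Pi.single d 1 : V → ZMod 2)
            = Pi.single a 1 + 0 + Pi.single d 1 := by rw [add_zero]
          _ = Pi.single a 1 + (Pi.single b 1 + Pi.single b 1) + Pi.single d 1 := by rw [h5]
          _ = _ := by simp only [add_assoc]
      rw [h4]
      exact Submodule.add_mem _ ih1 ih2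

/-- the rank bound -/
theorem rank_le (s t : E → V) (X : Finset V) (F : Finset E) (c : V → ℕ)
    (hc : ∀ u v, c u = c v → (Pi.single u 1 + Pi.single v 1 : V → ZMod 2) ∈ sp (inc s t) F) (hX : X.Nonempty) :
    (vr (inc s t)).r (univ.filter (fun f => s f ∈ X ∧ t f ∈ X))
      ≤ (vr (inc s t)).r F + ((X.image c).card - 1) := by
  classical
  obtain ⟨u0, hu0⟩ := hX
  have hrho : ∀ q : ℕ, ∃ u : V, q ∈ X.image c → u ∈ X ∧ c u = q := by
    intro q
    by_cases h : q ∈ X.image c
    · obtain ⟨u, hu, hu2⟩ := mem_image.1 h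
      exact ⟨u, fun _ => ⟨hu, hu2⟩⟩
    · exact ⟨u0, fun h' => absurd h' h⟩
  choose ρ hρ using hrho
  set T : Finset (V → ZMod 2) := ((X.image c).erase (c u0)).image
    (fun q => (Pi.single (ρ q) 1 + Pi.single u0 1 : V → ZMod 2)) with hT
  set S : Submodule (ZMod 2) (V → ZMod 2) := sp (inc s t) F ⊔ Submodule.span (ZMod 2) (T : Set (V → ZMod 2)) with hS
  have hone : ∀ u ∈ X, (Pi.single u 1 + Pi.single u0 1 : V → ZMod 2) ∈ S := by
    intro u hu
    by_cases h : c u = c u0
    · exact Submodule.mem_sup_left (hc u u0 h)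
    · have hq : c u ∈ X.image c := mem_image_of_mem _ hu
      obtain ⟨h1, h2⟩ := hρ (c u) hq
      have h3 : (Pi.single u 1 + Pi.single (ρ (c u)) 1 : V → ZMod 2) ∈ S :=
        Submodule.mem_sup_left (hc u _ h2.symm)
      have h4 : (Pi.single (ρ (c u)) 1 + Pi.single u0 1 : V → ZMod 2) ∈ S := by
        apply Submodule.mem_sup_right
        apply Submodule.subset_span
        rw [hT, coe_image]
        exact ⟨c u, by rw [mem_coe, mem_erase]; exact ⟨h, hq⟩, rfl⟩
      have h5 : (Pi.single u 1 + Pi.single u0 1 : V → ZMod 2)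
          = (Pi.single u 1 + Pi.single (ρ (c u)) 1) + (Pi.single (ρ (c u)) 1 + Pi.single u0 1) := by
        have h6 := add_self' (Pi.single (ρ (c u)) 1 : V → ZMod 2)
        calc (Pi.single u 1 + Pi.single u0 1 : V → ZMod 2)
            = Pi.single u 1 + 0 + Pi.single u0 1 := by rw [add_zero]
          _ = Pi.single u 1 + (Pi.single (ρ (c u)) 1 + Pi.single (ρ (c u)) 1) + Pi.single u0 1 := by rw [h6]
          _ = _ := by simp only [add_assoc]
      rw [h5]
      exact Submodule.add_mem _ h3 h4
  have hle : sp (inc s t) (univ.filter (fun f => s f ∈ X ∧ t f ∈ X)) ≤ S := by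
    unfold sp
    rw [Submodule.span_le]
    rintro _ ⟨f, hf, rfl⟩
    rw [mem_coe, mem_filter] at hf
    obtain ⟨_, h1, h2⟩ := hf
    have h3 : inc s t f = (Pi.single (s f) 1 + Pi.single u0 1) + (Pi.single (t f) 1 + Pi.single u0 1) := by
      have h6 := add_self' (Pi.single u0 1 : V → ZMod 2)
      unfold inc
      calc (Pi.single (s f) 1 + Pi.single (t f) 1 : V → ZMod 2)
          = Pi.single (s f) 1 + 0 + Pi.single (t f) 1 := by rw [add_zero]
        _ = Pi.single (s f) 1 + (Pi.single u0 1 + Pi.single u0 1) + Pi.single (t f) 1 := by rw [h6]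
        _ = _ := by
          rw [add_comm (Pi.single (t f) 1) (Pi.single u0 1)]
          simp only [add_assoc]
    rw [h3]
    exact S.add_mem (hone _ h1) (hone _ h2)
  have h1 : (vr (inc s t)).r (univ.filter (fun f => s f ∈ X ∧ t f ∈ X)) ≤ Module.finrank (ZMod 2) S :=
    Submodule.finrank_mono hle
  have h2 : Module.finrank (ZMod 2) S ≤ Module.finrank (ZMod 2) (sp (inc s t) F)
      + Module.finrank (ZMod 2) (Submodule.span (ZMod 2) (T : Set (V → ZMod 2))) :=
    Submodule.finrank_add_le_finrank_add_finrank _ _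
  have h3 : Module.finrank (ZMod 2) (Submodule.span (ZMod 2) (T : Set (V → ZMod 2))) ≤ T.card :=
    finrank_span_finset_le_card _
  have h4 : T.card ≤ (X.image c).card - 1 := by
    rw [hT]
    refine card_image_le.trans ?_
    rw [card_erase_of_mem (mem_image_of_mem _ hu0)]
  have h5 : (vr (inc s t)).r F = Module.finrank (ZMod 2) (sp (inc s t) F) := rfl
  omega

/-- the partition condition gives strength -/
theorem strong_of (s t : E → V) (p : E → ℕ) (k : ℕ) (X : Finset V) (hX : X.Nonempty)
    (h : ∀ c : V → ℕ, 2 * k * ((X.image c).card - 1)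
      ≤ ∑ f ∈ univ.filter (fun f => s f ∈ X ∧ t f ∈ X ∧ c (s f) ≠ c (t f)), p f) :
    Strong (vr (inc s t)) p k (univ.filter (fun f => s f ∈ X ∧ t f ∈ X)) := by
  intro F hF
  obtain ⟨c, hc1, hc2⟩ := labels s t F
  have h1 := rank_le s t X F c hc2 hX
  have h2 := h c
  have h3 : ∑ f ∈ univ.filter (fun f => s f ∈ X ∧ t f ∈ X ∧ c (s f) ≠ c (t f)), p f
      ≤ ∑ e ∈ univ.filter (fun f => s f ∈ X ∧ t f ∈ X) \ F, p e := by
    apply sum_le_sum_of_subset
    intro f hf
    rw [mem_filter] at hf
    rw [mem_sdiff, mem_filter]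
    exact ⟨⟨mem_univ _, hf.2.1, hf.2.2.1⟩, fun hfF => hf.2.2.2 (hc1 f hfF)⟩
  have h4 := Nat.mul_le_mul_left (2 * k) h1
  rw [Nat.mul_add] at h4
  omega

end graph

/-- the theorem for graphs -/
theorem main_graph {V E : Type} [Fintype V] [DecidableEq V] [Fintype E] [DecidableEq E] (s t : E → V) (p : E → ℕ)
    (h : ∀ e, 2 ≤ p e → ∃ X : Finset V, s e ∈ X ∧ t e ∈ X ∧ ∀ c : V → ℕ,
      2 * p e * ((X.image c).card - 1)
        ≤ ∑ f ∈ univ.filter (fun f => s f ∈ X ∧ t f ∈ X ∧ c (s f) ≠ c (t f)), p f)
    (hp : ∀ v, Even (∑ e, p e * ((if s e = v then 1 else 0) + (if t e = v then 1 else 0)))) :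
    ∃ L : List (Finset E), (∀ C ∈ L, Circ (inc s t) C) ∧ ∀ e, p e = L.countP (fun C => e ∈ C) := by
  apply dec_circ
  apply main_vec
  · exact (par_iff s t p).2 hp
  · intro e he
    obtain ⟨X, h1, h2, h3⟩ := h e he
    exact ⟨_, by rw [mem_filter]; exact ⟨mem_univ _, h1, h2⟩, strong_of s t p (p e) X ⟨_, h1⟩ h3⟩

end Pool.Agent.Helper97.CC
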