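import Pool.Agent.Helper97.CC.Piece
import Pool.Agent.Helper97.CC.Graph

/-!
Cuts of a weighted graph; splitting off at a vertex without heavy edges keeps the cut condition.
-/

set_option autoImplicit false
set_option linter.unusedSectionVars false

namespace Pool.Agent.Helper97.CC

open Finset Pool.Agent.Helper55.Rota

variable {V E : Type} [Fintype V] [DecidableEq V] [Fintype E] [DecidableEq E]

/-- the edge `e` crosses `X` -/
def Cr (s t : E → V) (X : Finset V) (e : E) : Prop := ¬ (s e ∈ X ↔ t e ∈ X)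

instance (s t : E → V) (X : Finset V) : DecidablePred (Cr s t X) := fun e => by unfold Cr; infer_instance

/-- the weight of the cut of `X` -/
def cut (s t : E → V) (p : E → ℕ) (X : Finset V) : ℕ := ∑ e, if Cr s t X e then p e else 0

/-- an edge of weight at least 2 crosses `X` -/
def Hv (s t : E → V) (p : E → ℕ) (X : Finset V) : Prop := ∃ e, 2 ≤ p e ∧ Cr s t X e

/-- the cut condition -/
def CC (s t : E → V) (p : E → ℕ) (m : ℕ) : Prop := ∀ X : Finset V, Hv s t p X → 4 * m ≤ cut s t p X

lemma cut_submod (s t : E → V) (p : E → ℕ) (X Y : Finset V) :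
    cut s t p (X ∩ Y) + cut s t p (X ∪ Y) ≤ cut s t p X + cut s t p Y := by
  unfold cut
  rw [← sum_add_distrib, ← sum_add_distrib]
  apply sum_le_sum
  intro e _
  unfold Cr
  by_cases h1 : s e ∈ X <;> by_cases h2 : t e ∈ X <;> by_cases h3 : s e ∈ Y <;> by_cases h4 : t e ∈ Y <;>
    simp [h1, h2, h3, h4]

lemma cut_posi (s t : E → V) (p : E → ℕ) (X Y : Finset V) (e0 : E)
    (h0 : (s e0 ∈ X ∧ s e0 ∈ Y ∧ t e0 ∉ X ∧ t e0 ∉ Y) ∨ (t e0 ∈ X ∧ t e0 ∈ Y ∧ s e0 ∉ X ∧ s e0 ∉ Y)) :
    cut s t p (X \ Y) + cut s t p (Y \ X) + 2 * p e0 ≤ cut s t p X + cut s t p Y := by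
  have h5 : 2 * p e0 = ∑ e, if e = e0 then 2 * p e else 0 := by simp
  rw [h5]
  unfold cut
  rw [← sum_add_distrib, ← sum_add_distrib, ← sum_add_distrib]
  apply sum_le_sum
  intro e _
  unfold Cr
  by_cases he : e = e0
  · subst he
    rcases h0 with ⟨h1, h2, h3, h4⟩ | ⟨h1, h2, h3, h4⟩ <;> simp [h1, h2, h3, h4] <;> omega
  · rw [if_neg he]
    by_cases h1 : s e ∈ X <;> by_cases h2 : t e ∈ X <;> by_cases h3 : s e ∈ Y <;> by_cases h4 : t e ∈ Y <;>
      simp [h1, h2, h3, h4]

lemma cr_compl (s t : E → V) (X : Finset V) (e : E) : Cr s t Xᶜ e ↔ Cr s t X e := by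
  unfold Cr
  rw [mem_compl, mem_compl]
  tauto

lemma cut_compl (s t : E → V) (p : E → ℕ) (X : Finset V) : cut s t p Xᶜ = cut s t p X := by
  unfold cut
  apply sum_congr rfl
  intro e _
  rw [if_congr (cr_compl s t X e) rfl rfl]

lemma cut_parity (s t : E → V) (p : E → ℕ) (X : Finset V) :
    ((cut s t p X : ℕ) : ZMod 2) = ∑ v ∈ X, par (inc s t) p v := by
  unfold par cut
  have h1 : ∀ v ∈ X, (∑ e, p e • inc s t e) v = ∑ e, (p e : ZMod 2) * inc s t e v := by
    intro v _
    rw [Finset.sum_apply]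
    apply sum_congr rfl
    intro e _
    simp [nsmul_eq_mul]
  rw [sum_congr rfl h1, sum_comm]
  push_cast
  apply sum_congr rfl
  intro e _
  rw [← mul_sum]
  have h2 : ∑ v ∈ X, inc s t e v = (if s e ∈ X then 1 else 0) + (if t e ∈ X then 1 else 0) := by
    unfold inc
    simp only [Pi.add_apply]
    rw [sum_add_distrib, sum_pi_single', sum_pi_single']
  rw [h2]
  unfold Cr
  have h11 : (1 : ZMod 2) + 1 = 0 := by decide
  by_cases h3 : s e ∈ X <;> by_cases h4 : t e ∈ X <;> simp [h3, h4, h11]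

lemma cut_even (s t : E → V) (p : E → ℕ) (hp : par (inc s t) p = 0) (X : Finset V) : Even (cut s t p X) := by
  rw [← ZMod.natCast_eq_zero_iff_even, cut_parity, hp]
  simp

lemma hv_cases (s t : E → V) (p : E → ℕ) (X Y : Finset V) (hX : Hv s t p X) (hY : Hv s t p Y) :
    (Hv s t p (X ∩ Y) ∧ Hv s t p (X ∪ Y)) ∨ (Hv s t p (X \ Y) ∧ Hv s t p (Y \ X)) := by
  obtain ⟨e, he, hce⟩ := hX
  obtain ⟨f, hf, hcf⟩ := hY
  have key : ∀ a b c d a' b' c' d' : Bool, ¬ (a = true ↔ b = true) → ¬ (c' = true ↔ d' = true) →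
      (((¬ ((a && c) = true ↔ (b && d) = true) ∨ ¬ ((a' && c') = true ↔ (b' && d') = true)) ∧
        (¬ ((a || c) = true ↔ (b || d) = true) ∨ ¬ ((a' || c') = true ↔ (b' || d') = true))) ∨
      ((¬ ((a && !c) = true ↔ (b && !d) = true) ∨ ¬ ((a' && !c') = true ↔ (b' && !d') = true)) ∧
        (¬ ((c && !a) = true ↔ (d && !b) = true) ∨ ¬ ((c' && !a') = true ↔ (d' && !b') = true)))) := by
    decide
  have k := key (decide (s e ∈ X)) (decide (t e ∈ X)) (decide (s e ∈ Y)) (decide (t e ∈ Y))
    (decide (s f ∈ X)) (decide (t f ∈ X)) (decide (s f ∈ Y)) (decide (t f ∈ Y))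
    (by simpa [Cr] using hce) (by simpa [Cr] using hcf)
  have c1 : ∀ g, Cr s t (X ∩ Y) g ↔ ¬ ((decide (s g ∈ X) && decide (s g ∈ Y)) = true ↔
      (decide (t g ∈ X) && decide (t g ∈ Y)) = true) := by
    intro g; simp [Cr, mem_inter]
  have c2 : ∀ g, Cr s t (X ∪ Y) g ↔ ¬ ((decide (s g ∈ X) || decide (s g ∈ Y)) = true ↔
      (decide (t g ∈ X) || decide (t g ∈ Y)) = true) := by
    intro g; simp [Cr, mem_union]
  have c3 : ∀ g, Cr s t (X \ Y) g ↔ ¬ ((decide (s g ∈ X) && !decide (s g ∈ Y)) = true ↔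
      (decide (t g ∈ X) && !decide (t g ∈ Y)) = true) := by
    intro g; simp [Cr, mem_sdiff]
  have c4 : ∀ g, Cr s t (Y \ X) g ↔ ¬ ((decide (s g ∈ Y) && !decide (s g ∈ X)) = true ↔
      (decide (t g ∈ Y) && !decide (t g ∈ X)) = true) := by
    intro g; simp [Cr, mem_sdiff]
  rw [← c1 e, ← c1 f, ← c2 e, ← c2 f, ← c3 e, ← c3 f, ← c4 e, ← c4 f] at k
  have q : ∀ Z, (Cr s t Z e ∨ Cr s t Z f) → Hv s t p Z := by
    rintro Z (h | h)
    · exact ⟨e, he, h⟩
    · exact ⟨f, hf, h⟩
  rcases k with ⟨h1, h2⟩ | ⟨h1, h2⟩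
  · exact Or.inl ⟨q _ h1, q _ h2⟩
  · exact Or.inr ⟨q _ h1, q _ h2⟩

lemma sum_two {M : Type} [AddCommMonoid M] (g : E → M) (e f : E) (hef : e ≠ f) :
    ∑ x, g x = g e + g f + ∑ x ∈ (univ.erase e).erase f, g x := by
  rw [← add_sum_erase univ g (mem_univ e), ← add_sum_erase (univ.erase e) g (a := f)
    (mem_erase.2 ⟨hef.symm, mem_univ _⟩), add_assoc]

/-- the other end -/
def oth (s t : E → V) (v : V) (e : E) : V := if s e = v then t e else s e

lemma oth_inc (s t : E → V) (v : V) (e : E) (h : s e = v ∨ t e = v) :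
    inc s t e = Pi.single v 1 + Pi.single (oth s t v e) 1 := by
  unfold inc oth
  by_cases h1 : s e = v
  · rw [if_pos h1, h1]
  · rw [if_neg h1]
    rcases h with h | h
    · exact absurd h h1
    · rw [h, add_comm]

lemma cr_single (s t : E → V) (v : V) (e : E) :
    Cr s t {v} e ↔ (s e = v ∨ t e = v) ∧ ¬ (s e = v ∧ t e = v) := by
  unfold Cr
  rw [mem_singleton, mem_singleton]
  tauto

lemma oth_ne (s t : E → V) (v : V) (e : E) (h : Cr s t {v} e) : oth s t v e ≠ v := by
  rw [cr_single] at h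
  unfold oth
  by_cases h1 : s e = v
  · rw [if_pos h1]; exact fun h2 => h.2 ⟨h1, h2⟩
  · rw [if_neg h1]; exact h1

/-- an edge at `v` crosses a set not containing `v` iff its other end is in the set -/
lemma cr_oth (s t : E → V) (v : V) (e : E) (h : Cr s t {v} e) (Z : Finset V) (hv : v ∉ Z) :
    Cr s t Z e ↔ oth s t v e ∈ Z := by
  rw [cr_single] at h
  unfold oth Cr
  by_cases h1 : s e = v
  · rw [if_pos h1, h1]
    simp [hv]
  · rw [if_neg h1]
    have h2 : t e = v := by
      rcases h.1 with h3 | h3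
      · exact absurd h3 h1
      · exact h3
    rw [h2]
    simp [hv]

/-- splitting off `e` and `f` at `v` -/
theorem split_cc (s t : E → V) (p : E → ℕ) (m : ℕ) (hp : par (inc s t) p = 0) (hC : CC s t p m)
    (v : V) (hlt : cut s t p {v} < 4 * m) (hpos : 0 < cut s t p {v})
    (hloop : ∀ e, p e ≠ 0 → ¬ (s e = v ∧ t e = v)) :
    ∃ e f, e ≠ f ∧ p e = 1 ∧ p f = 1 ∧ Cr s t {v} e ∧ Cr s t {v} f ∧
      CC (Function.update s e (oth s t v e)) (Function.update t e (oth s t v f)) (Function.update p f 0) m := by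
  classical
  -- edges at v are light
  have hlight : ∀ e, p e ≠ 0 → Cr s t {v} e → p e = 1 := by
    intro e he hc
    by_contra h1
    have := hC {v} ⟨e, by omega, hc⟩
    omega
  obtain ⟨e, hce, hpe⟩ : ∃ e, Cr s t {v} e ∧ p e ≠ 0 := by
    by_contra hcon
    push Not at hcon
    have : cut s t p {v} = 0 := by
      unfold cut
      apply sum_eq_zero
      intro e _
      split_ifs with h
      · exact hcon e h
      · rfl
    omega
  have hpe1 := hlight e hpe hce
  obtain ⟨f0, hf0e, hcf0, hpf0⟩ : ∃ f, f ≠ e ∧ Cr s t {v} f ∧ p f ≠ 0 := by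
    by_contra hcon
    push Not at hcon
    have h1 : cut s t p {v} = 1 := by
      unfold cut
      rw [sum_eq_single e]
      · rw [if_pos hce, hpe1]
      · intro f _ hf
        split_ifs with h
        · exact hcon f hf h
        · rfl
      · intro h; exact absurd (mem_univ e) h
    have h2 := cut_even s t p hp {v}
    rw [h1] at h2
    exact absurd h2 (by decide)
  by_contra hcon
  push Not at hcon
  -- tight sets
  have htight : ∀ f, f ≠ e → Cr s t {v} f → p f ≠ 0 →
      ∃ Z : Finset V, v ∉ Z ∧ oth s t v e ∈ Z ∧ oth s t v f ∈ Z ∧ Hv s t p Z ∧ cut s t p Z = 4 * m := by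
    intro f hfe hcf hpf
    have hpf1 := hlight f hpf hcf
    have hbad := hcon e f (Ne.symm hfe) hpe1 hpf1 hce hcf
    set s' := Function.update s e (oth s t v e) with hs'
    set t' := Function.update t e (oth s t v f) with ht'
    set p' := Function.update p f 0 with hp'
    unfold CC at hbad
    push Not at hbad
    obtain ⟨Z0, hZ0, hZ0c⟩ := hbad
    obtain ⟨Z, hvZ, hZ, hZc⟩ : ∃ Z : Finset V, v ∉ Z ∧ Hv s' t' p' Z ∧ cut s' t' p' Z < 4 * m := by
      by_cases hv : v ∈ Z0
      · refine ⟨Z0ᶜ, by simp [hv], ?_, by rw [cut_compl]; exact hZ0c⟩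
        obtain ⟨g, hg1, hg2⟩ := hZ0
        exact ⟨g, hg1, (cr_compl s' t' Z0 g).2 hg2⟩
      · exact ⟨Z0, hv, hZ0, hZ0c⟩
    have hother : ∀ g, g ≠ e → (Cr s' t' Z g ↔ Cr s t Z g) := by
      intro g hg
      unfold Cr
      rw [hs', ht', Function.update_of_ne hg, Function.update_of_ne hg]
    have hHv : Hv s t p Z := by
      obtain ⟨g, hg1, hg2⟩ := hZ
      have hgf : g ≠ f := by
        rintro rfl
        rw [hp', Function.update_self] at hg1; omega
      rw [hp', Function.update_of_ne hgf] at hg1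
      have hge : g ≠ e := by
        rintro rfl
        omega
      exact ⟨g, hg1, (hother g hge).1 hg2⟩
    have h4 := hC Z hHv
    have c1 : cut s t p Z = (if Cr s t Z e then p e else 0) + (if Cr s t Z f then p f else 0)
        + ∑ x ∈ (univ.erase e).erase f, (if Cr s t Z x then p x else 0) :=
      sum_two _ e f (Ne.symm hfe)
    have c2 : cut s' t' p' Z = (if Cr s' t' Z e then p' e else 0) + (if Cr s' t' Z f then p' f else 0)
        + ∑ x ∈ (univ.erase e).erase f, (if Cr s' t' Z x then p' x else 0) :=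
      sum_two _ e f (Ne.symm hfe)
    have c3 : ∑ x ∈ (univ.erase e).erase f, (if Cr s' t' Z x then p' x else 0)
        = ∑ x ∈ (univ.erase e).erase f, (if Cr s t Z x then p x else 0) := by
      apply sum_congr rfl
      intro g hg
      rw [mem_erase, mem_erase] at hg
      rw [if_congr (hother g hg.2.1) rfl rfl, hp', Function.update_of_ne hg.1]
    have hp'e : p' e = 1 := by rw [hp', Function.update_of_ne (Ne.symm hfe)]; exact hpe1
    have hp'f : p' f = 0 := by rw [hp', Function.update_self]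
    rw [c3, hp'e, hp'f] at c2
    rw [hpe1, hpf1, if_congr (cr_oth s t v e hce Z hvZ) rfl rfl, if_congr (cr_oth s t v f hcf Z hvZ) rfl rfl] at c1
    have c4 : Cr s' t' Z e ↔ ¬ (oth s t v e ∈ Z ↔ oth s t v f ∈ Z) := by
      unfold Cr
      rw [hs', ht', Function.update_self, Function.update_self]
    rw [if_congr c4 rfl rfl] at c2
    have hboth : oth s t v e ∈ Z ∧ oth s t v f ∈ Z := by
      by_contra hnot
      by_cases h1 : oth s t v e ∈ Z <;> by_cases h2 : oth s t v f ∈ Z
      · exact hnot ⟨h1, h2⟩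
      · simp [h1, h2] at c1 c2; omega
      · simp [h1, h2] at c1 c2; omega
      · simp [h1, h2] at c1 c2; omega
    refine ⟨Z, hvZ, hboth.1, hboth.2, hHv, ?_⟩
    simp only [hboth.1, hboth.2] at c1 c2
    simp at c1 c2
    have hev := cut_even s t p hp Z
    obtain ⟨k, hk⟩ := hev
    omega
  -- maximal tight set
  set 𝒯 : Finset (Finset V) := univ.filter (fun Z => v ∉ Z ∧ oth s t v e ∈ Z ∧ Hv s t p Z ∧ cut s t p Z = 4 * m)
    with h𝒯
  have hne : 𝒯.Nonempty := by
    obtain ⟨Z, h1, h2, _, h4, h5⟩ := htight f0 hf0e hcf0 hpf0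
    exact ⟨Z, by rw [h𝒯, mem_filter]; exact ⟨mem_univ _, h1, h2, h4, h5⟩⟩
  obtain ⟨Z, hZ, hZmax⟩ := exists_max_image 𝒯 card hne
  rw [h𝒯, mem_filter] at hZ
  obtain ⟨_, hvZ, heZ, hHvZ, hcZ⟩ := hZ
  have hall : ∀ f, Cr s t {v} f → p f ≠ 0 → oth s t v f ∈ Z := by
    intro f hcf hpf
    by_cases hfe : f = e
    · rw [hfe]; exact heZ
    obtain ⟨Z', h1, h2, h3, h4, h5⟩ := htight f hfe hcf hpf
    rcases hv_cases s t p Z Z' hHvZ h4 with ⟨q1, q2⟩ | ⟨q1, q2⟩
    · have r1 := hC _ q1
      have r2 := hC _ q2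
      have r3 := cut_submod s t p Z Z'
      have hU : Z ∪ Z' ∈ 𝒯 := by
        rw [h𝒯, mem_filter]
        refine ⟨mem_univ _, ?_, mem_union_left _ heZ, q2, by omega⟩
        rw [mem_union]; tauto
      have r4 := hZmax _ hU
      have r5 : Z = Z ∪ Z' := eq_of_subset_of_card_le subset_union_left r4
      rw [r5]; exact mem_union_right _ h3
    · exfalso
      have r1 := hC _ q1
      have r2 := hC _ q2
      have r3 := cut_posi s t p Z Z' e (by
        rw [cr_single] at hce
        unfold oth at heZ h2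
        by_cases hse : s e = v
        · rw [if_pos hse] at heZ h2
          right
          rw [hse]
          exact ⟨heZ, h2, hvZ, h1⟩
        · rw [if_neg hse] at heZ h2
          left
          have hte : t e = v := by
            rcases hce.1 with h | h
            · exact absurd h hse
            · exact h
          rw [hte]
          exact ⟨heZ, h2, hvZ, h1⟩)
      omega
  -- adding v gives a smaller cut
  have hle : cut s t p (insert v Z) + cut s t p {v} ≤ cut s t p Z := by
    unfold cut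
    rw [← sum_add_distrib]
    apply sum_le_sum
    intro g _
    by_cases hg : p g = 0
    · simp [hg]
    by_cases hcg : Cr s t {v} g
    · have h1 := hall g hcg hg
      have h2 : Cr s t Z g := (cr_oth s t v g hcg Z hvZ).2 h1
      have h3 : ¬ Cr s t (insert v Z) g := by
        unfold Cr
        rw [not_not, mem_insert, mem_insert]
        rw [cr_single] at hcg
        unfold oth at h1
        by_cases hse : s g = v
        · rw [if_pos hse] at h1
          simp [hse, h1]
        · rw [if_neg hse] at h1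
          have hte : t g = v := by
            rcases hcg.1 with h | h
            · exact absurd h hse
            · exact h
          simp [hte, h1]
      rw [if_pos hcg, if_pos h2, if_neg h3]; omega
    · rw [if_neg hcg]
      have h4 : s g ≠ v ∧ t g ≠ v := by
        rw [cr_single] at hcg
        have := hloop g hg
        tauto
      have h5 : Cr s t (insert v Z) g ↔ Cr s t Z g := by
        unfold Cr
        rw [mem_insert, mem_insert]
        simp [h4.1, h4.2]
      rw [if_congr h5 rfl rfl]; omega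
  have hHv' : Hv s t p (insert v Z) := by
    obtain ⟨g, hg1, hg2⟩ := hHvZ
    refine ⟨g, hg1, ?_⟩
    have hg0 : p g ≠ 0 := by omega
    have h4 : s g ≠ v ∧ t g ≠ v := by
      have h5 : ¬ Cr s t {v} g := fun h => by
        have := hlight g hg0 h
        omega
      rw [cr_single] at h5
      have := hloop g hg0
      tauto
    unfold Cr at hg2 ⊢
    rw [mem_insert, mem_insert]
    simpa [h4.1, h4.2] using hg2
  have := hC _ hHv'
  omega

end Pool.Agent.Helper97.CC
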