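import Mathlib

/-!
Decomposition of a weight with values 0, 1, 2 on a binary matroid (vectors `x e` over GF(2)) into three even
sets, when its support contains two disjoint sets with the same span.
-/

set_option autoImplicit false
set_option linter.unusedSectionVars false

namespace Pool.Agent.Helper97.CC

open Finset

variable {E : Type} [Fintype E] [DecidableEq E] {W : Type} [AddCommGroup W] [Module (ZMod 2) W]

/-- an even set of elements -/
def Ev (x : E → W) (F : Finset E) : Prop := ∑ e ∈ F, x e = 0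

/-- the span of the vectors of a set -/
def sp (x : E → W) (F : Finset E) : Submodule (ZMod 2) W := Submodule.span (ZMod 2) (x '' (F : Set E))

/-- `w` is a sum of even sets -/
def Dec (x : E → W) (w : E → ℕ) : Prop :=
  ∃ L : List (Finset E), (∀ F ∈ L, Ev x F) ∧ ∀ e, w e = L.countP (fun F => e ∈ F)

lemma Dec.add {x : E → W} {w1 w2 : E → ℕ} (h1 : Dec x w1) (h2 : Dec x w2) :
    Dec x (fun e => w1 e + w2 e) := by
  obtain ⟨L1, hL1, hc1⟩ := h1
  obtain ⟨L2, hL2, hc2⟩ := h2
  refine ⟨L1 ++ L2, ?_, ?_⟩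
  · intro F hF
    rcases List.mem_append.1 hF with h | h
    · exact hL1 F h
    · exact hL2 F h
  · intro e
    rw [List.countP_append, ← hc1 e, ← hc2 e]

lemma add_self' (y : W) : y + y = 0 := ZModModule.add_self y

lemma sp_mono (x : E → W) {F G : Finset E} (h : F ⊆ G) : sp x F ≤ sp x G :=
  Submodule.span_mono (Set.image_mono (by exact_mod_cast h))

lemma mem_sp (x : E → W) {F : Finset E} {e : E} (h : e ∈ F) : x e ∈ sp x F :=
  Submodule.subset_span ⟨e, by exact_mod_cast h, rfl⟩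

lemma sum_mem_sp (x : E → W) {F G : Finset E} (h : F ⊆ G) : ∑ e ∈ F, x e ∈ sp x G :=
  Submodule.sum_mem _ (fun e he => mem_sp x (h he))

/-- the sum over a set as a sum over all elements -/
lemma sum_ind (x : E → W) (F : Finset E) : ∑ e ∈ F, x e = ∑ e, (if e ∈ F then x e else 0) := by
  rw [← sum_filter]
  congr 1
  ext e; simp

lemma sum_symm (x : E → W) (A B : Finset E) :
    ∑ e ∈ symmDiff A B, x e = ∑ e ∈ A, x e + ∑ e ∈ B, x e := by
  rw [sum_ind, sum_ind x A, sum_ind x B, ← sum_add_distrib]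
  apply sum_congr rfl
  intro e _
  by_cases h1 : e ∈ A <;> by_cases h2 : e ∈ B <;> simp [h1, h2, add_self', mem_symmDiff]

lemma exists_sub (x : E → W) (F : Finset E) (y : W) (hy : y ∈ sp x F) :
    ∃ K ⊆ F, ∑ e ∈ K, x e = y := by
  unfold sp at hy
  induction hy using Submodule.span_induction with
  | mem z hz =>
    obtain ⟨e, he, rfl⟩ := hz
    exact ⟨{e}, by simpa using he, by simp⟩
  | zero => exact ⟨∅, by simp, by simp⟩
  | add u v _ _ hu hv =>
    obtain ⟨A, hA, rfl⟩ := hu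
    obtain ⟨B, hB, rfl⟩ := hv
    refine ⟨symmDiff A B, ?_, sum_symm x A B⟩
    intro e he
    rw [mem_symmDiff] at he
    rcases he with h | h
    · exact hA h.1
    · exact hB h.1
  | smul c u _ hu =>
    obtain ⟨A, hA, rfl⟩ := hu
    have h : c = 0 ∨ c = 1 := by
      have : ∀ z : ZMod 2, z = 0 ∨ z = 1 := by decide
      exact this _
    rcases h with h | h
    · exact ⟨∅, by simp, by simp [h]⟩
    · exact ⟨A, hA, by simp [h]⟩

lemma Ev.symm {x : E → W} {A B : Finset E} (h1 : Ev x A) (h2 : Ev x B) : Ev x (symmDiff A B) := by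
  unfold Ev at *
  rw [sum_symm, h1, h2, add_zero]

lemma nsmul_two' (y : W) : (2 : ℕ) • y = 0 := by rw [two_nsmul]; exact add_self' y

/-- sum of a weight with values at most 2 -/
lemma sum_w (x : E → W) (w : E → ℕ) (hw : ∀ e, w e ≤ 2) :
    ∑ e, w e • x e = ∑ e ∈ univ.filter (fun e => w e = 1), x e := by
  rw [sum_filter]
  apply sum_congr rfl
  intro e _
  have := hw e
  interval_cases h : w e
  · simp
  · simp
  · simp [nsmul_two']

lemma mem_symm_disj {A K : Finset E} (hK : Disjoint A K) (e : E) :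
    e ∈ symmDiff A K ↔ e ∈ A ∨ e ∈ K := by
  rw [mem_symmDiff]
  constructor
  · rintro (h | h)
    · exact Or.inl h.1
    · exact Or.inr h.1
  · rintro (h | h)
    · exact Or.inl ⟨h, fun h' => (Finset.disjoint_left.1 hK) h h'⟩
    · exact Or.inr ⟨h, fun h' => (Finset.disjoint_left.1 hK) h' h⟩

lemma mem_symm_iff {A K : Finset E} (e : E) : e ∈ symmDiff A K ↔ ¬ (e ∈ A ↔ e ∈ K) := by
  rw [mem_symmDiff]; tauto

/-- LAYER LEMMA -/
theorem layer (x : E → W) (w : E → ℕ) (hw : ∀ e, w e ≤ 2) (hev : ∑ e, w e • x e = 0)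
    (a b : Finset E) (hab : Disjoint a b) (ha : ∀ e ∈ a, 1 ≤ w e) (hb : ∀ e ∈ b, 1 ≤ w e)
    (hsp : sp x a = sp x b) (h2 : ∑ e ∈ univ.filter (fun e => w e = 2), x e ∈ sp x a) :
    Dec x w := by
  classical
  set W1 := univ.filter (fun e => w e = 1) with hW1
  set W2 := univ.filter (fun e => w e = 2) with hW2
  set H := univ.filter (fun e => 1 ≤ w e) with hH
  have e1 : Ev x W1 := by unfold Ev; rw [← sum_w x w hw]; exact hev
  have hHsum : ∑ e ∈ H, x e = ∑ e ∈ W2, x e := by
    have : H = symmDiff W1 W2 := by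
      ext e
      simp only [hH, hW1, hW2, mem_symmDiff, mem_filter, mem_univ, true_and]
      have := hw e
      omega
    rw [this, sum_symm, e1, zero_add]
  have haH : a ⊆ H := fun e he => by simp [hH, ha e he]
  have hbH : b ⊆ H := fun e he => by simp [hH, hb e he]
  -- first even set
  have hc1 : ∑ e ∈ H \ a, x e ∈ sp x a := by
    have h3 : ∑ e ∈ H \ a, x e + ∑ e ∈ a, x e = ∑ e ∈ H, x e := sum_sdiff haH
    have h4 : ∑ e ∈ H \ a, x e = ∑ e ∈ H, x e - ∑ e ∈ a, x e := by rw [← h3]; abel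
    rw [h4, hHsum]
    exact Submodule.sub_mem _ h2 (sum_mem_sp x (Subset.refl a))
  obtain ⟨K, hKa, hK⟩ := exists_sub x a _ hc1
  obtain ⟨K', hKb, hK'⟩ := exists_sub x b (∑ e ∈ a, x e) (by rw [← hsp]; exact sum_mem_sp x (Subset.refl a))
  set C1 := symmDiff (H \ a) K with hC1
  set C2 := symmDiff a K' with hC2
  have hE1 : Ev x C1 := by
    unfold Ev; rw [hC1, sum_symm, hK]; exact add_self' _
  have hE2 : Ev x C2 := by
    unfold Ev; rw [hC2, sum_symm, hK']; exact add_self' _
  refine ⟨[symmDiff C1 W1, symmDiff C2 W1, symmDiff (symmDiff C1 C2) W1], ?_, ?_⟩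
  · intro F hF
    simp only [List.mem_cons, List.not_mem_nil, or_false] at hF
    rcases hF with rfl | rfl | rfl
    · exact hE1.symm e1
    · exact hE2.symm e1
    · exact (hE1.symm hE2).symm e1
  · intro e
    have hwe := hw e
    have hab' : e ∈ a → e ∉ b := fun h h' => (Finset.disjoint_left.1 hab) h h'
    have hKa' : e ∈ K → e ∈ a := fun h => hKa h
    have hKb' : e ∈ K' → e ∈ b := fun h => hKb h
    have haH' : e ∈ a → 1 ≤ w e := ha e
    have hbH' : e ∈ b → 1 ≤ w e := hb e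
    have m1 : e ∈ C1 ↔ (1 ≤ w e ∧ e ∉ a) ∨ e ∈ K := by
      rw [hC1, mem_symm_disj (Finset.disjoint_left.2 (fun z hz hz' => (mem_sdiff.1 hz).2 (hKa hz')))]
      simp [hH]
    have m2 : e ∈ C2 ↔ e ∈ a ∨ e ∈ K' := by
      rw [hC2, mem_symm_disj (Finset.disjoint_left.2
        (fun z hz hz' => (Finset.disjoint_left.1 hab) hz (hKb hz')))]
    have m3 : e ∈ W1 ↔ w e = 1 := by simp [hW1]
    have hcnt : ∀ (A B C : Finset E), List.countP (fun F => decide (e ∈ F)) [A, B, C]
        = (if e ∈ A then 1 else 0) + (if e ∈ B then 1 else 0) + (if e ∈ C then 1 else 0) := by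
      intro A B C
      by_cases h1 : e ∈ A <;> by_cases h2 : e ∈ B <;> by_cases h3 : e ∈ C <;> simp [h1, h2, h3]
    rw [hcnt]
    have n1 : e ∈ symmDiff C1 W1 ↔ ¬ (e ∈ C1 ↔ w e = 1) := by rw [mem_symm_iff, m3]
    have n2 : e ∈ symmDiff C2 W1 ↔ ¬ (e ∈ C2 ↔ w e = 1) := by rw [mem_symm_iff, m3]
    have n3 : e ∈ symmDiff (symmDiff C1 C2) W1 ↔ ¬ (¬ (e ∈ C1 ↔ e ∈ C2) ↔ w e = 1) := by
      rw [mem_symm_iff, mem_symm_iff, m3]
    rw [if_congr n1 rfl rfl, if_congr n2 rfl rfl, if_congr n3 rfl rfl]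
    have k1 : w e = 0 → e ∉ C1 ∧ e ∉ C2 := by
      intro h0
      refine ⟨?_, ?_⟩
      · intro h
        rcases m1.1 h with h | h
        · omega
        · have := haH' (hKa' h); omega
      · intro h
        rcases m2.1 h with h | h
        · have := haH' h; omega
        · have := hbH' (hKb' h); omega
    have k2 : 1 ≤ w e → e ∈ C1 ∨ e ∈ C2 := by
      intro h1
      by_cases h : e ∈ a
      · exact Or.inr (m2.2 (Or.inl h))
      · exact Or.inl (m1.2 (Or.inl ⟨h1, h⟩))
    clear hcnt n1 n2 n3 m1 m2 m3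
    have hcase : w e = 0 ∨ w e = 1 ∨ w e = 2 := by omega
    rcases hcase with h | h | h
    · obtain ⟨q1, q2⟩ := k1 h
      simp [h, q1, q2]
    · rcases k2 (by omega) with q | q
      · by_cases q2 : e ∈ C2 <;> simp [h, q, q2]
      · by_cases q1 : e ∈ C1 <;> simp [h, q, q1]
    · rcases k2 (by omega) with q | q
      · by_cases q2 : e ∈ C2 <;> simp [h, q, q2]
      · by_cases q1 : e ∈ C1 <;> simp [h, q, q1]

end Pool.Agent.Helper97.CC
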