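import Pool.Agent.Helper97.CC.Peel

/-!
A weight which is the sum of `m` sets `Y i`, nested spans, each with two disjoint bases, is a sum of even sets.
-/

set_option autoImplicit false
set_option linter.unusedSectionVars false

namespace Pool.Agent.Helper97.CC

open Finset

variable {E : Type} [Fintype E] [DecidableEq E] {W : Type} [AddCommGroup W] [Module (ZMod 2) W]

/-- the weight of the first `k` sets, of `J` and of `Z` -/
def pw (Y : ℕ → Finset E) (Z : Finset E) (k : ℕ) (J : Finset E) (e : E) : ℕ :=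
  (∑ i ∈ range k, ind (Y i) e) + ind J e + ind Z e

/-- the data: `Es 0 ⊇ Es 1 ⊇ ...`, `a i, b i ⊆ Y i ⊆ Es i` -/
structure Lay (x : E → W) (Es Y a b : ℕ → Finset E) (Z : Finset E) : Prop where
  anti : ∀ i j, i ≤ j → Es j ⊆ Es i
  aY : ∀ i, a i ⊆ Y i
  bY : ∀ i, b i ⊆ Y i
  YE : ∀ i, Y i ⊆ Es i
  ab : ∀ i, Disjoint (a i) (b i)
  spa : ∀ i, sp x (a i) = sp x (Es i)
  spb : ∀ i, sp x (b i) = sp x (Es i)
  ZE : Disjoint Z (Es 0)

variable {x : E → W} {Es Y a b : ℕ → Finset E} {Z : Finset E}

lemma Lay.mem (h : Lay x Es Y a b Z) {i j : ℕ} (hij : i ≤ j) {e : E} (he : e ∈ Es j) :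
    x e ∈ sp x (a i) := by
  rw [h.spa]; exact mem_sp x (h.anti i j hij he)

/-- statement for the first `k` sets -/
def Q (x : E → W) (Es Y : ℕ → Finset E) (Z : Finset E) (k : ℕ) : Prop :=
  ∀ J : Finset E, J ⊆ Es (k - 1) → J ⊆ Es k ∨ k = 0 → par x (pw Y Z k J) = 0 → Dec x (pw Y Z k J)

lemma Dec.congr {w w' : E → ℕ} (h : Dec x w) (hw : ∀ e, w' e = w e) : Dec x w' := by
  have : w' = w := funext hw
  rw [this]; exact h

lemma dec_even {F : Finset E} (h : Ev x F) : Dec x (ind F) := by
  refine ⟨[F], by simpa using h, ?_⟩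
  intro e
  by_cases he : e ∈ F <;> simp [ind, he]

lemma q_zero (h : Lay x Es Y a b Z) : Q x Es Y Z 0 := by
  intro J hJ _ hp
  have hd : Disjoint J Z := Finset.disjoint_left.2 (fun e he he' =>
    (Finset.disjoint_left.1 h.ZE) he' (hJ he))
  have e1 : ∀ e, pw Y Z 0 J e = ind (J ∪ Z) e := by
    intro e
    simp only [pw, range_zero, sum_empty, zero_add]
    by_cases h1 : e ∈ J
    · have h2 : e ∉ Z := (Finset.disjoint_left.1 hd) h1
      simp [ind, h1, h2]
    · by_cases h2 : e ∈ Z <;> simp [ind, h1, h2]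
  have e2 : pw Y Z 0 J = ind (J ∪ Z) := funext e1
  rw [e2] at hp ⊢
  apply dec_even
  unfold Ev
  rw [← par_ind]; exact hp

lemma q_one (h : Lay x Es Y a b Z) : Q x Es Y Z 1 := by
  intro J hJ _ hp
  have hJ' : J ⊆ Es 0 := hJ
  have hJZ : ∀ e ∈ J, e ∉ Z := fun e he he' => (Finset.disjoint_left.1 h.ZE) he' (hJ' he)
  have hYZ : ∀ e ∈ Y 0, e ∉ Z := fun e he he' => (Finset.disjoint_left.1 h.ZE) he' (h.YE 0 he)
  have e1 : ∀ e, pw Y Z 1 J e = ind (Y 0) e + ind J e + ind Z e := by
    intro e; simp [pw]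
  refine layer' x _ ?_ hp (a 0) (b 0) (h.ab 0) ?_ ?_ (by rw [h.spa, h.spb]) ?_
  · intro e
    rw [e1]
    have i1 := ind_le (Y 0) e
    have i2 := ind_le J e
    have i3 := ind_le Z e
    by_cases hz : e ∈ Z
    · have n1 : e ∉ Y 0 := fun h' => hYZ e h' hz
      rw [ind_zero n1]; omega
    · rw [ind_zero hz]; omega
  · intro e he
    rw [e1, ind_pos (h.aY 0 he)]; omega
  · intro e he
    rw [e1, ind_pos (h.bY 0 he)]; omega
  · intro e he
    rw [e1] at he
    by_cases hz : e ∈ Z
    · exfalso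
      have n1 : e ∉ Y 0 := fun h' => hYZ e h' hz
      have n2 : e ∉ J := fun h' => hJZ e h' hz
      have := ind_le Z e
      rw [ind_zero n1, ind_zero n2] at he; omega
    · by_cases hy : e ∈ Y 0
      · exact h.mem (le_refl 0) (h.YE 0 hy)
      · by_cases hj : e ∈ J
        · exact h.mem (le_refl 0) (hJ' hj)
        · exfalso
          rw [ind_zero hy, ind_zero hj, ind_zero hz] at he; omega

lemma q_step (h : Lay x Es Y a b Z) (k : ℕ) (hk : Q x Es Y Z k) : Q x Es Y Z (k + 3) := by
  intro J hJ _ hp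
  have hJ' : J ⊆ Es (k + 2) := hJ
  obtain ⟨w1, w2, J', hJ'ab, d1, d2, p1, p2, hsum⟩ :=
    triple x (Y (k + 2)) (Y (k + 1)) (Y k) J (a (k + 2)) (b (k + 2)) (a (k + 1)) (b (k + 1)) (a k) (b k)
      (h.aY _) (h.bY _) (h.ab _) (by rw [h.spa, h.spb]) (fun e he => h.mem (le_refl _) (h.YE _ he))
      (h.aY _) (h.bY _) (h.ab _) (by rw [h.spa, h.spb]) (fun e he => h.mem (le_refl _) (h.YE _ he))
      (h.aY _) (h.bY _) (h.ab _) (by rw [h.spa, h.spb]) (fun e he => h.mem (le_refl _) (h.YE _ he))
      (fun e he => h.mem (j := k + 2) (by omega) (h.YE _ he))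
      (fun e he => h.mem (j := k + 1) (by omega) (h.YE _ he))
      (fun e he => h.mem (j := k + 2) (by omega) (hJ' he))
      (fun e he => h.mem (j := k + 2) (by omega) (hJ' he))
      (fun e he => h.mem (j := k + 2) (by omega) (hJ' he))
  have tot : ∀ e, pw Y Z (k + 3) J e = (w1 e + w2 e) + pw Y Z k J' e := by
    intro e
    have := hsum e
    simp only [pw]
    rw [sum_range_succ, sum_range_succ, sum_range_succ]
    omega
  have hJ'k : J' ⊆ Es k := by
    intro e he
    rcases mem_union.1 (hJ'ab he) with h' | h'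
    · exact h.YE k (h.aY k h')
    · exact h.YE k (h.bY k h')
  have hpar : par x (pw Y Z k J') = 0 := by
    have e1 : pw Y Z (k + 3) J = fun e => (fun e => w1 e + w2 e) e + pw Y Z k J' e := funext tot
    rw [e1, par_add, par_add, p1, p2] at hp
    simpa using hp
  have hdec := hk J' (hJ'k.trans (h.anti _ _ (by omega))) (Or.inl hJ'k) hpar
  exact Dec.congr ((d1.add d2).add hdec) tot

lemma q_all (h : Lay x Es Y a b Z) (q : ℕ) : Q x Es Y Z (3 * q) ∧ Q x Es Y Z (3 * q + 1) := by
  induction q with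
  | zero => exact ⟨q_zero h, q_one h⟩
  | succ q ih => exact ⟨q_step h (3 * q) ih.1, q_step h (3 * q + 1) ih.2⟩

/-- the main decomposition theorem -/
theorem lay_dec (h : Lay x Es Y a b Z) (m : ℕ) (hp : par x (pw Y Z m ∅) = 0) : Dec x (pw Y Z m ∅) := by
  have h3 : m % 3 = 0 ∨ m % 3 = 1 ∨ m % 3 = 2 := by omega
  rcases h3 with h3 | h3 | h3
  · have : m = 3 * (m / 3) := by omega
    have hq := (q_all h (m / 3)).1
    rw [← this] at hq
    exact hq ∅ (empty_subset _) (Or.inl (empty_subset _)) hp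
  · have : m = 3 * (m / 3) + 1 := by omega
    have hq := (q_all h (m / 3)).2
    rw [← this] at hq
    exact hq ∅ (empty_subset _) (Or.inl (empty_subset _)) hp
  · obtain ⟨k, hk⟩ : ∃ k, m = k + 2 := ⟨m - 2, by omega⟩
    subst hk
    -- the top layer
    set u : E → ℕ := fun e => ind (Y (k + 1)) e + ind (Y k) e with hu
    have mu : par x u ∈ sp x (a k) := by
      apply par_mem
      intro e he
      by_cases h1 : e ∈ Y (k + 1)
      · exact h.mem (j := k + 1) (by omega) (h.YE _ h1)
      · by_cases h2 : e ∈ Y k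
        · exact h.mem (le_refl _) (h.YE _ h2)
        · exact absurd (by simp [hu, ind_zero h1, ind_zero h2]) he
    obtain ⟨j, hj, w, hw, hpw⟩ := flip x u (a k)
      (fun e he => by simp only [hu, ind_pos (h.aY k he)]; omega) mu
    have wpos : ∀ e ∈ Y (k + 1), 1 ≤ w e := by
      intro e he
      have h1 := hw e
      by_cases h' : e ∈ j
      · simp only [hu, ind_pos he, ind_pos (h.aY k (hj h')), ind_pos h'] at h1; omega
      · simp only [hu, ind_pos he, ind_zero h'] at h1; omega
    have wd : Dec x w := by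
      refine layer' x w ?_ hpw (a (k + 1)) (b (k + 1)) (h.ab _) (fun e he => wpos e (h.aY _ he))
        (fun e he => wpos e (h.bY _ he)) (by rw [h.spa, h.spb]) ?_
      · intro e
        have h1 := hw e
        have i1 := ind_le (Y (k + 1)) e
        have i2 := ind_le (Y k) e
        simp only [hu] at h1; omega
      · intro e he
        by_cases h1 : e ∈ Y (k + 1)
        · exact h.mem (le_refl _) (h.YE _ h1)
        · exfalso
          have h2 := hw e
          have i2 := ind_le (Y k) e
          simp only [hu, ind_zero h1] at h2; omega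
    have tot : ∀ e, pw Y Z (k + 2) ∅ e = w e + pw Y Z k j e := by
      intro e
      have h1 := hw e
      simp only [pw]
      rw [sum_range_succ, sum_range_succ]
      simp only [hu] at h1
      have : ind (∅ : Finset E) e = 0 := by simp [ind]
      omega
    have hjk : j ⊆ Es k := fun e he => h.YE k (h.aY k (hj he))
    have hpar : par x (pw Y Z k j) = 0 := by
      have e1 : pw Y Z (k + 2) ∅ = fun e => w e + pw Y Z k j e := funext tot
      rw [e1, par_add, hpw] at hp
      simpa using hp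
    have hq := (q_all h (k / 3)).1
    have hk3 : k = 3 * (k / 3) := by omega
    rw [← hk3] at hq
    exact Dec.congr (wd.add (hq j (hjk.trans (h.anti _ _ (by omega))) (Or.inl hjk) hpar)) tot

end Pool.Agent.Helper97.CC
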