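import Pool.Agent.Helper97.CC.Rank

/-!
Packing: in nested sets `Es i`, two disjoint bases for every `i < m`, every element used at most `p e` times.
-/

set_option autoImplicit false
set_option linter.unusedSectionVars false

namespace Pool.Agent.Helper97.CC

open Finset Pool.Agent.Helper55.Rota

variable {E : Type} [Fintype E] [DecidableEq E]

/-- sum over `i` of the sums over `Es i` -/
lemma sum_swap (Es : ℕ → Finset E) (m : ℕ) (c : E → ℚ) (F : Finset E) :
    ∑ i ∈ range m, ∑ e ∈ Es i \ F, c e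
      = ∑ e ∈ univ \ F, (((range m).filter (fun i => e ∈ Es i)).card : ℚ) * c e := by
  have h1 : ∀ i ∈ range m, ∑ e ∈ Es i \ F, c e = ∑ e ∈ univ \ F, (if e ∈ Es i then c e else 0) := by
    intro i _
    rw [← sum_filter]
    apply sum_congr _ (fun _ _ => rfl)
    ext e; simp [and_comm]
  rw [sum_congr rfl h1, sum_comm]
  apply sum_congr rfl
  intro e _
  rw [← sum_filter, sum_const, nsmul_eq_mul]

theorem pack_card (R : RankFn E) (Es : ℕ → Finset E) (m : ℕ) (p : E → ℕ) (c : E → ℚ)
    (hA : ∀ i < m, ∀ F ⊆ Es i, 2 * (R.r (Es i) : ℚ) - 2 * (R.r F : ℚ) ≤ ∑ e ∈ Es i \ F, c e)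
    (hB : ∀ e, (((range m).filter (fun i => e ∈ Es i)).card : ℚ) * c e ≤ p e)
    (hC : ∀ e, c e ≤ 1) :
    ∃ X : ℕ → Finset E, (∀ i < m, X i ⊆ Es i ∧ (∀ B ⊆ X i, B.card ≤ 2 * R.r B) ∧
      (X i).card = 2 * R.r (Es i)) ∧
      ∀ e, ((range m).filter (fun i => e ∈ X i)).card ≤ p e := by
  classical
  rcases isEmpty_or_nonempty E with hE | hE
  · refine ⟨fun _ => ∅, fun i _ => ⟨by simp, ?_, ?_⟩, fun e => isEmptyElim e⟩
    · intro B hB'
      have : B = ∅ := by ext z; exact isEmptyElim z
      subst this; simp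
    · have : Es i = ∅ := by ext z; exact isEmptyElim z
      rw [this, R.empty]; simp
  have hNE : Nonempty (E × ℕ) := ⟨(Classical.arbitrary E, 0)⟩
  set J₀ : Finset (E × ℕ) := univ.biUnion (fun e => (range (p e)).image (fun k => (e, k))) with hJ₀
  have memJ₀ : ∀ z : E × ℕ, z ∈ J₀ ↔ z.2 < p z.1 := by
    intro z
    rw [hJ₀, mem_biUnion]
    constructor
    · rintro ⟨e, _, h⟩
      rw [mem_image] at h
      obtain ⟨k, hk, rfl⟩ := h
      simpa using hk
    · intro h
      exact ⟨z.1, mem_univ _, mem_image.2 ⟨z.2, mem_range.2 h, rfl⟩⟩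
  set A : E × ℕ → Finset (E × ℕ) := fun z =>
    ((range m).filter (fun i => z.1 ∈ Es i)).image (fun i => (z.1, i)) with hAdef
  have memA : ∀ z w : E × ℕ, w ∈ A z ↔ w.1 = z.1 ∧ w.2 < m ∧ z.1 ∈ Es w.2 := by
    intro z w
    simp only [hAdef, mem_image, mem_filter, mem_range]
    constructor
    · rintro ⟨i, ⟨h1, h2⟩, rfl⟩; exact ⟨rfl, h1, h2⟩
    · rintro ⟨h1, h2, h3⟩; exact ⟨w.2, ⟨h2, h3⟩, Prod.ext h1.symm rfl⟩
  set RR := prodRank (range m) (convRank R) with hRR
  set K : ℕ := ∑ i ∈ range m, 2 * R.r (Es i) with hK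
  have key : ∀ J ⊆ J₀, J.card + K ≤ RR.r (J.biUnion A) + J₀.card := by
    intro J hJ
    set F := J.image Prod.fst with hF
    have hs : ∀ i ∈ range m, slice i (J.biUnion A) = F ∩ Es i := by
      intro i hi
      ext e
      rw [mem_slice, mem_biUnion, mem_inter, hF, mem_image]
      constructor
      · rintro ⟨z, hz, hw⟩
        rw [memA] at hw
        exact ⟨⟨z, hz, hw.1.symm⟩, by have := hw.2.2; rw [← hw.1] at this; exact this⟩
      · rintro ⟨⟨z, hz, rfl⟩, he⟩
        exact ⟨z, hz, (memA z _).2 ⟨rfl, mem_range.1 hi, he⟩⟩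
    have hr : RR.r (J.biUnion A) = ∑ i ∈ range m, convFn R (F ∩ Es i) := by
      show ∑ i ∈ range m, convFn R (slice i _) = _
      exact sum_congr rfl (fun i hi => by rw [hs i hi])
    have hJc : J.card ≤ ∑ e ∈ F, p e := by
      have : J ⊆ F.biUnion (fun e => (range (p e)).image (fun k => (e, k))) := by
        intro z hz
        rw [mem_biUnion]
        exact ⟨z.1, mem_image.2 ⟨z, hz, rfl⟩, mem_image.2 ⟨z.2, mem_range.2 ((memJ₀ z).1 (hJ hz)), rfl⟩⟩
      refine (card_le_card this).trans (card_biUnion_le.trans ?_)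
      apply sum_le_sum
      intro e _
      exact card_image_le.trans (by simp)
    have hJ₀c : J₀.card = ∑ e, p e := by
      rw [hJ₀, card_biUnion]
      · apply sum_congr rfl
        intro e _
        rw [card_image_of_injective _ (fun k l h => (Prod.mk.inj h).2), card_range]
      · intro e _ e' _ hee
        rw [Function.onFun, Finset.disjoint_left]
        intro z hz hz'
        rw [mem_image] at hz hz'
        obtain ⟨k, _, rfl⟩ := hz
        obtain ⟨l, _, h⟩ := hz'
        exact hee (Prod.mk.inj h).1.symm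
    choose B hB1 hB2 using fun i => convFn_ex R (F ∩ Es i)
    have hsumF : ∑ e ∈ F, p e + ∑ e ∈ univ \ F, p e = ∑ e, p e := by
      rw [add_comm]; exact sum_sdiff (subset_univ F)
    -- the inequality in the rationals
    have hq : (K : ℚ) ≤ (∑ e ∈ univ \ F, p e : ℕ) + (∑ i ∈ range m, convFn R (F ∩ Es i) : ℕ) := by
      have h1 : ∀ i ∈ range m, (2 * R.r (Es i) : ℚ) ≤
          (convFn R (F ∩ Es i) : ℚ) + ∑ e ∈ Es i \ F, c e := by
        intro i hi
        have hBE : B i ⊆ Es i := (hB1 i).trans inter_subset_right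
        have h2 := hA i (mem_range.1 hi) (B i) hBE
        have h3 : Es i \ B i = (Es i \ F) ∪ ((F ∩ Es i) \ B i) := by
          ext e
          simp only [mem_union, mem_sdiff, mem_inter]
          have := @hB1 i e
          rw [mem_inter] at this
          tauto
        have h4 : ∑ e ∈ Es i \ B i, c e = ∑ e ∈ Es i \ F, c e + ∑ e ∈ (F ∩ Es i) \ B i, c e := by
          rw [h3, sum_union]
          rw [Finset.disjoint_left]
          intro e h h'
          exact (mem_sdiff.1 h).2 (mem_inter.1 (mem_sdiff.1 h').1).1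
        have h5 : ∑ e ∈ (F ∩ Es i) \ B i, c e ≤ (((F ∩ Es i) \ B i).card : ℚ) := by
          calc ∑ e ∈ (F ∩ Es i) \ B i, c e ≤ ∑ e ∈ (F ∩ Es i) \ B i, (1 : ℚ) := sum_le_sum (fun e _ => hC e)
            _ = _ := by simp
        have h6 : (convFn R (F ∩ Es i) : ℚ) = 2 * (R.r (B i) : ℚ) + (((F ∩ Es i) \ B i).card : ℚ) := by
          rw [hB2 i]; push_cast; ring
        rw [h6]
        linarith
      have h7 : (K : ℚ) = ∑ i ∈ range m, (2 * R.r (Es i) : ℚ) := by
        rw [hK]; push_cast; rfl
      rw [h7]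
      refine (sum_le_sum h1).trans ?_
      rw [sum_add_distrib, sum_swap]
      have h8 : ∑ e ∈ univ \ F, (((range m).filter (fun i => e ∈ Es i)).card : ℚ) * c e
          ≤ ∑ e ∈ univ \ F, (p e : ℚ) := sum_le_sum (fun e _ => hB e)
      push_cast
      linarith
    have hn : K ≤ (∑ e ∈ univ \ F, p e) + (∑ i ∈ range m, convFn R (F ∩ Es i)) := by exact_mod_cast hq
    rw [hr, hJ₀c, ← hsumF]
    omega
  have hKle : K ≤ J₀.card := by
    have := key ∅ (empty_subset _)
    rw [biUnion_empty, RR.empty] at this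
    simpa using this
  obtain ⟨J1, hJ1, f, hf1, hf2, hf3⟩ := rado_defect RR J₀ A (J₀.card - K) (by
    intro J hJ
    have := key J hJ
    omega)
  set X := J1.image f with hX
  have hXA : ∀ z ∈ X, ∃ j ∈ J1, f j = z ∧ z.1 = j.1 ∧ z.2 < m ∧ z.1 ∈ Es z.2 := by
    intro z hz
    obtain ⟨j, hj, rfl⟩ := mem_image.1 hz
    have h1 := (memA j (f j)).1 (hf1 j hj)
    exact ⟨j, hj, rfl, h1.1, h1.2.1, by rw [h1.1]; exact h1.2.2⟩
  have hXc : X.card = ∑ i ∈ range m, (slice i X).card := by
    rw [card_eq_sum_card_fiberwise (f := Prod.snd) (t := range m)]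
    · apply sum_congr rfl
      intro i _
      unfold slice
      rw [card_image_of_injOn]
      intro z hz w hw h
      simp only [coe_filter, Set.mem_ofPred_eq] at hz hw
      exact Prod.ext h (hz.2.trans hw.2.symm)
    · intro z hz
      obtain ⟨j, _, _, _, h, _⟩ := hXA z hz
      exact mem_coe.2 (mem_range.2 h)
  have hXle : X.card ≤ J1.card := card_image_le
  have hRX : RR.r X = ∑ i ∈ range m, convFn R (slice i X) := rfl
  have hcl : ∀ i ∈ range m, convFn R (slice i X) ≤ (slice i X).card := fun i _ =>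
    (convRank R).le_card (slice i X)
  have heq : ∀ i ∈ range m, convFn R (slice i X) = (slice i X).card := by
    apply (sum_eq_sum_iff_of_le hcl).1
    apply le_antisymm (sum_le_sum hcl)
    rw [← hXc, ← hRX]; exact hXle.trans hf2
  have hsub : ∀ i ∈ range m, slice i X ⊆ Es i := by
    intro i _ e he
    rw [mem_slice] at he
    obtain ⟨j, _, _, _, _, h⟩ := hXA _ he
    exact h
  have hle2 : ∀ i ∈ range m, (slice i X).card ≤ 2 * R.r (Es i) := by
    intro i hi
    rw [← heq i hi]
    refine (convFn_le R (Subset.refl _)).trans ?_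
    have := R.mono (hsub i hi)
    simp
    omega
  have heq2 : ∀ i ∈ range m, (slice i X).card = 2 * R.r (Es i) := by
    apply (sum_eq_sum_iff_of_le hle2).1
    apply le_antisymm (sum_le_sum hle2)
    rw [← hXc, ← hK]
    have h1 : J1.card ≤ X.card := by
      rw [hXc]
      refine hf2.trans ?_
      rw [hRX]; exact sum_le_sum hcl
    omega
  refine ⟨fun i => slice i X, ?_, ?_⟩
  · intro i hi
    have hi' := mem_range.2 hi
    refine ⟨hsub i hi', ?_, heq2 i hi'⟩
    intro B hB'
    have h1 : convFn R (slice i X) ≤ 2 * R.r B + (slice i X \ B).card := convFn_le R hB'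
    rw [heq i hi'] at h1
    have h2 : (slice i X \ B).card + B.card = (slice i X).card := card_sdiff_add_card_eq_card hB'
    omega
  · intro e
    have h1 : ((range m).filter (fun i => e ∈ slice i X)).image (fun i => (e, i))
        ⊆ ((range (p e)).image (fun k => (e, k))).image f := by
      intro z hz
      rw [mem_image] at hz
      obtain ⟨i, hi, rfl⟩ := hz
      have h2 := mem_slice.1 (mem_filter.1 hi).2
      obtain ⟨j, hj, h3, h4, _, _⟩ := hXA _ h2
      rw [mem_image]
      refine ⟨j, ?_, h3⟩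
      have h5 := (memJ₀ j).1 (hJ1 hj)
      rw [mem_image]
      refine ⟨j.2, ?_, ?_⟩
      · rw [mem_range]; simp only at h4; rw [h4]; exact h5
      · simp only at h4; rw [h4]
    have h2 := card_le_card h1
    rw [card_image_of_injective _ (fun k l h => (Prod.mk.inj h).2)] at h2
    exact h2.trans (card_image_le.trans (card_image_le.trans (by simp)))

end Pool.Agent.Helper97.CC
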