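import Pool.Agent.Helper97.CC.Layer

/-!
Three class-simple sets make two layers; parities are pushed from layer to layer.
-/

set_option autoImplicit false
set_option linter.unusedSectionVars false

namespace Pool.Agent.Helper97.CC

open Finset

variable {E : Type} [Fintype E] [DecidableEq E] {W : Type} [AddCommGroup W] [Module (ZMod 2) W]

/-- indicator -/
def ind (F : Finset E) (e : E) : ℕ := if e ∈ F then 1 else 0

/-- parity vector of a weight -/
def par (x : E → W) (w : E → ℕ) : W := ∑ e, w e • x e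

lemma par_add (x : E → W) (u v : E → ℕ) : par x (fun e => u e + v e) = par x u + par x v := by
  unfold par
  rw [← sum_add_distrib]
  apply sum_congr rfl
  intro e _
  rw [add_smul]

lemma par_ind (x : E → W) (F : Finset E) : par x (ind F) = ∑ e ∈ F, x e := by
  unfold par
  rw [sum_ind x F]
  apply sum_congr rfl
  intro e _
  unfold ind
  split_ifs <;> simp

lemma par_mem (x : E → W) (w : E → ℕ) (S : Submodule (ZMod 2) W) (h : ∀ e, w e ≠ 0 → x e ∈ S) :
    par x w ∈ S := by
  unfold par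
  apply Submodule.sum_mem
  intro e _
  by_cases h0 : w e = 0
  · simp [h0]
  · exact Submodule.smul_of_tower_mem S (w e) (h e h0)

lemma ind_le (F : Finset E) (e : E) : ind F e ≤ 1 := by unfold ind; split_ifs <;> simp

lemma ind_pos {F : Finset E} {e : E} (h : e ∈ F) : ind F e = 1 := by simp [ind, h]

lemma ind_zero {F : Finset E} {e : E} (h : e ∉ F) : ind F e = 0 := by simp [ind, h]

lemma flip (x : E → W) (u : E → ℕ) (a : Finset E) (hs : ∀ e ∈ a, 1 ≤ u e) (hm : par x u ∈ sp x a) :
    ∃ j ⊆ a, ∃ w : E → ℕ, (∀ e, u e = w e + ind j e) ∧ par x w = 0 := by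
  obtain ⟨j, hj, hsum⟩ := exists_sub x a _ hm
  refine ⟨j, hj, fun e => u e - ind j e, ?_, ?_⟩
  · intro e
    by_cases h : e ∈ j
    · have := hs e (hj h)
      rw [ind_pos h]; simp only [ind_pos h]; omega
    · simp [ind_zero h]
  · have h1 : par x u = par x (fun e => u e - ind j e) + par x (ind j) := by
      rw [← par_add]
      congr 1
      funext e
      by_cases h : e ∈ j
      · have := hs e (hj h)
        simp only [ind_pos h]; omega
      · simp [ind_zero h]
    rw [par_ind, hsum] at h1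
    have h2 : par x (fun e => u e - ind j e) + par x u = 0 + par x u := by rw [← h1, zero_add]
    exact add_right_cancel h2

lemma sum_mem' (x : E → W) (F : Finset E) (S : Submodule (ZMod 2) W) (h : ∀ e ∈ F, x e ∈ S) :
    ∑ e ∈ F, x e ∈ S := Submodule.sum_mem _ h

/-- one layer whose weight is `w = ind Y + ...` -/
lemma layer' (x : E → W) (w : E → ℕ) (hw : ∀ e, w e ≤ 2) (hev : par x w = 0)
    (A B : Finset E) (hAB : Disjoint A B) (hA : ∀ e ∈ A, 1 ≤ w e) (hB : ∀ e ∈ B, 1 ≤ w e)
    (hsp : sp x A = sp x B) (h2 : ∀ e, w e = 2 → x e ∈ sp x A) : Dec x w :=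
  layer x w hw hev A B hAB hA hB hsp (sum_mem' x _ _ (fun e he => h2 e (by simpa using he)))

theorem triple (x : E → W) (Y1 Y2 T J A1 B1 A2 B2 a b : Finset E)
    (hA1 : A1 ⊆ Y1) (hB1 : B1 ⊆ Y1) (hAB1 : Disjoint A1 B1) (hsp1 : sp x A1 = sp x B1)
    (hY1 : ∀ e ∈ Y1, x e ∈ sp x A1)
    (hA2 : A2 ⊆ Y2) (hB2 : B2 ⊆ Y2) (hAB2 : Disjoint A2 B2) (hsp2 : sp x A2 = sp x B2)
    (hY2 : ∀ e ∈ Y2, x e ∈ sp x A2)
    (ha : a ⊆ T) (hb : b ⊆ T) (hab : Disjoint a b) (hspT : sp x a = sp x b)
    (hT : ∀ e ∈ T, x e ∈ sp x a) (hY1T : ∀ e ∈ Y1, x e ∈ sp x a) (hY2T : ∀ e ∈ Y2, x e ∈ sp x a)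
    (hJ1 : ∀ e ∈ J, x e ∈ sp x A1) (hJ2 : ∀ e ∈ J, x e ∈ sp x A2) (hJT : ∀ e ∈ J, x e ∈ sp x a) :
    ∃ (w1 w2 : E → ℕ) (J' : Finset E), J' ⊆ a ∪ b ∧ Dec x w1 ∧ Dec x w2 ∧ par x w1 = 0 ∧ par x w2 = 0 ∧
      ∀ e, ind Y1 e + ind Y2 e + ind T e + ind J e = w1 e + w2 e + ind J' e := by
  classical
  set J1 := J \ (Y1 ∩ a) with hJ1d
  set J2 := J ∩ (Y1 ∩ a) with hJ2d
  have iJ : ∀ e, ind J e = ind J1 e + ind J2 e := by
    intro e
    by_cases h : e ∈ J <;> by_cases h' : e ∈ Y1 ∩ a <;> simp [ind, hJ1d, hJ2d, h, h']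
  have iT : ∀ e, ind T e = ind a e + ind (T \ a) e := by
    intro e
    by_cases h : e ∈ a
    · simp [ind, h, ha h]
    · by_cases h' : e ∈ T <;> simp [ind, h, h']
  have hJ1J : J1 ⊆ J := sdiff_subset
  have hJ2J : J2 ⊆ J := inter_subset_left
  -- first layer
  set u1 : E → ℕ := fun e => ind Y1 e + ind a e + ind J1 e with hu1
  have m1 : par x u1 ∈ sp x a := by
    apply par_mem
    intro e he
    by_cases h : e ∈ Y1
    · exact hY1T e h
    by_cases h' : e ∈ a
    · exact mem_sp x h'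
    by_cases h'' : e ∈ J1
    · exact hJT e (hJ1J h'')
    · exact absurd (by simp [hu1, ind_zero h, ind_zero h', ind_zero h'']) he
  obtain ⟨j1, hj1, w1, hw1, hp1⟩ := flip x u1 a (fun e he => by simp only [hu1, ind_pos he]; omega) m1
  have u1le : ∀ e, u1 e ≤ 2 := by
    intro e
    have i1 := ind_le Y1 e
    have i2 := ind_le a e
    have i3 := ind_le J1 e
    by_cases h : e ∈ J1
    · have h' : e ∉ Y1 ∩ a := (mem_sdiff.1 h).2
      rw [mem_inter, not_and_or] at h'
      rcases h' with h' | h'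
      · simp only [hu1, ind_zero h']; omega
      · simp only [hu1, ind_zero h']; omega
    · simp only [hu1, ind_zero h]; omega
  have w1pos : ∀ e ∈ Y1, 1 ≤ w1 e := by
    intro e he
    have h1 := hw1 e
    by_cases h : e ∈ j1
    · simp only [hu1, ind_pos he, ind_pos (hj1 h), ind_pos h] at h1; omega
    · simp only [hu1, ind_pos he, ind_zero h] at h1; omega
  have w1two : ∀ e, w1 e = 2 → x e ∈ sp x A1 := by
    intro e he
    have h1 := hw1 e
    by_cases h : e ∈ Y1
    · exact hY1 e h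
    by_cases h' : e ∈ J1
    · exact hJ1 e (hJ1J h')
    exfalso
    have := ind_le a e
    simp only [hu1, ind_zero h, ind_zero h'] at h1; omega
  have d1 : Dec x w1 := by
    refine layer' x w1 (fun e => ?_) hp1 A1 B1 hAB1 (fun e he => w1pos e (hA1 he))
      (fun e he => w1pos e (hB1 he)) hsp1 w1two
    have := u1le e
    have := hw1 e
    omega
  -- second layer
  set v : E → ℕ := fun e => ind Y2 e + ind (T \ a) e + ind J2 e with hv
  set j1' := j1.filter (fun e => v e ≤ 1) with hj1'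
  set j1'' := j1.filter (fun e => ¬ v e ≤ 1) with hj1''
  have ij : ∀ e, ind j1 e = ind j1' e + ind j1'' e := by
    intro e
    by_cases h : e ∈ j1 <;> by_cases h' : v e ≤ 1 <;> simp [ind, hj1', hj1'', h, h']
  set u2 : E → ℕ := fun e => v e + ind j1' e with hu2
  have vle : ∀ e, v e ≤ 2 := by
    intro e
    have i1 := ind_le Y2 e
    have i2 := ind_le (T \ a) e
    have i3 := ind_le J2 e
    by_cases h : e ∈ J2
    · have h' : e ∈ a := (mem_inter.1 (mem_inter.1 h).2).2
      have h'' : e ∉ T \ a := fun h => (mem_sdiff.1 h).2 h'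
      simp only [hv, ind_zero h'']; omega
    · simp only [hv, ind_zero h]; omega
  have u2le : ∀ e, u2 e ≤ 2 := by
    intro e
    have := vle e
    have i1 := ind_le j1' e
    by_cases h : e ∈ j1'
    · have := (mem_filter.1 h).2
      simp only [hu2]; omega
    · simp only [hu2, ind_zero h]; omega
  have hj1a : ∀ e ∈ j1', e ∈ a := fun e he => hj1 (mem_filter.1 he).1
  have hbT : b ⊆ T \ a := fun e he => mem_sdiff.2 ⟨hb he, fun h => (Finset.disjoint_left.1 hab) h he⟩
  have m2 : par x u2 ∈ sp x b := by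
    rw [← hspT]
    apply par_mem
    intro e he
    by_cases h : e ∈ Y2
    · exact hY2T e h
    by_cases h' : e ∈ T \ a
    · exact hT e (mem_sdiff.1 h').1
    by_cases h'' : e ∈ J2
    · exact hJT e (hJ2J h'')
    by_cases h3 : e ∈ j1'
    · exact mem_sp x (hj1a e h3)
    · exact absurd (by simp [hu2, hv, ind_zero h, ind_zero h', ind_zero h'', ind_zero h3]) he
  obtain ⟨j2, hj2, w2, hw2, hp2⟩ := flip x u2 b
    (fun e he => by simp only [hu2, hv, ind_pos (hbT he)]; omega) m2
  have w2pos : ∀ e ∈ Y2, 1 ≤ w2 e := by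
    intro e he
    have h1 := hw2 e
    by_cases h : e ∈ j2
    · simp only [hu2, hv, ind_pos he, ind_pos (hbT (hj2 h)), ind_pos h] at h1; omega
    · simp only [hu2, hv, ind_pos he, ind_zero h] at h1; omega
  have w2two : ∀ e, w2 e = 2 → x e ∈ sp x A2 := by
    intro e he
    have h1 := hw2 e
    by_cases h : e ∈ Y2
    · exact hY2 e h
    by_cases h' : e ∈ J2
    · exact hJ2 e (hJ2J h')
    exfalso
    by_cases h3 : e ∈ j1'
    · have h4 : e ∉ T \ a := fun h => (mem_sdiff.1 h).2 (hj1a e h3)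
      have := ind_le j1' e
      simp only [hu2, hv, ind_zero h, ind_zero h', ind_zero h4] at h1; omega
    · have := ind_le (T \ a) e
      simp only [hu2, hv, ind_zero h, ind_zero h', ind_zero h3] at h1; omega
  have d2 : Dec x w2 := by
    refine layer' x w2 (fun e => ?_) hp2 A2 B2 hAB2 (fun e he => w2pos e (hA2 he))
      (fun e he => w2pos e (hB2 he)) hsp2 w2two
    have := u2le e
    have := hw2 e
    omega
  have hdis : Disjoint j2 j1'' := Finset.disjoint_left.2 (fun e he he' =>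
    (Finset.disjoint_left.1 hab) (hj1 (mem_filter.1 he').1) (hj2 he))
  refine ⟨w1, w2, j2 ∪ j1'', ?_, d1, d2, hp1, hp2, ?_⟩
  · intro e he
    rcases mem_union.1 he with h | h
    · exact mem_union_right _ (hj2 h)
    · exact mem_union_left _ (hj1 (mem_filter.1 h).1)
  · intro e
    have q1 := hw1 e
    have q2 := hw2 e
    have q3 := iJ e
    have q4 := iT e
    have q5 := ij e
    have q6 : ind (j2 ∪ j1'') e = ind j2 e + ind j1'' e := by
      by_cases h : e ∈ j2
      · have h' : e ∉ j1'' := (Finset.disjoint_left.1 hdis) h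
        simp [ind, h, h']
      · by_cases h' : e ∈ j1'' <;> simp [ind, h, h']
    simp only [hu1, hu2, hv] at q1 q2
    omega

end Pool.Agent.Helper97.CC
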