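import Pool.Agent.Helper97.CC.Targets

/-!
A strong piece: a weight with values at most `m` on a strong set is a sum of `slots m` sets with prescribed sums.
-/

set_option autoImplicit false
set_option linter.unusedSectionVars false

namespace Pool.Agent.Helper97.CC

open Finset Pool.Agent.Helper55.Rota

variable {E : Type} [Fintype E] [DecidableEq E] {W : Type} [AddCommGroup W] [Module (ZMod 2) W]

/-- the weight of the first `k` sets and of `J` -/
def pu (Y : ℕ → Finset E) (k : ℕ) (J : Finset E) (e : E) : ℕ := (∑ i ∈ range k, ind (Y i) e) + ind J e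

/-- `m` sets, each with two disjoint bases of `S` -/
structure Uni (x : E → W) (S : Submodule (ZMod 2) W) (D : Finset E) (Y a b : ℕ → Finset E) (m : ℕ) : Prop where
  aY : ∀ i < m, a i ⊆ Y i
  bY : ∀ i < m, b i ⊆ Y i
  YD : ∀ i < m, Y i ⊆ D
  ab : ∀ i < m, Disjoint (a i) (b i)
  spa : ∀ i < m, sp x (a i) = S
  spb : ∀ i < m, sp x (b i) = S
  DS : ∀ e ∈ D, x e ∈ S

variable {x : E → W} {S : Submodule (ZMod 2) W} {D : Finset E} {Y a b : ℕ → Finset E} {m : ℕ}

/-- the statement for the first `k` sets and `n` targets -/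
def QT (x : E → W) (S : Submodule (ZMod 2) W) (D : Finset E) (Y : ℕ → Finset E) (k n : ℕ) : Prop :=
  ∀ J ⊆ D, ∀ ys : List W, ys.length = n → (∀ y ∈ ys, y ∈ S) → par x (pu Y k J) = ys.sum →
    DecT x (pu Y k J) ys

lemma qt_zero : QT x S D Y 0 1 := by
  intro J _ ys hl _ hp
  obtain ⟨y, rfl⟩ := List.length_eq_one_iff.1 hl
  have e1 : pu Y 0 J = ind J := by
    funext e; simp [pu]
  rw [e1] at hp ⊢
  refine ⟨[J], ?_, ?_⟩
  · rw [par_ind] at hp
    simp only [List.sum_cons, List.sum_nil, add_zero] at hp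
    simp [hp]
  · intro e
    by_cases he : e ∈ J <;> simp [ind, he]

lemma length_three {ys : List W} (h : ys.length = 3) : ∃ a b c, ys = [a, b, c] := by
  rcases ys with _ | ⟨a, _ | ⟨b, _ | ⟨c, _ | ⟨d, t⟩⟩⟩⟩ <;> simp at h
  exact ⟨a, b, c, rfl⟩

lemma length_cons3 {ys : List W} {n : ℕ} (h : ys.length = n + 3) :
    ∃ a b c t, ys = a :: b :: c :: t ∧ t.length = n := by
  rcases ys with _ | ⟨a, _ | ⟨b, _ | ⟨c, t⟩⟩⟩
  · simp at h
  · simp at h
  · simp at h
  · simp only [List.length_cons] at h
    exact ⟨a, b, c, t, rfl, by omega⟩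

lemma qt_one (h : Uni x S D Y a b m) (hm : 1 ≤ m) : QT x S D Y 1 3 := by
  intro J hJ ys hl hy hp
  obtain ⟨y1, y2, y3, rfl⟩ := length_three hl
  have e1 : ∀ e, pu Y 1 J e = ind (Y 0) e + ind J e := by
    intro e; simp [pu]
  have h0 : 0 < m := hm
  refine layerT x _ ?_ y1 y2 y3 ?_ (a 0) (b 0) (h.ab 0 h0) ?_ ?_ (by rw [h.spa 0 h0, h.spb 0 h0]) ?_ ?_ ?_
  · intro e
    rw [e1]
    have i1 := ind_le (Y 0) e
    have i2 := ind_le J e
    omega
  · rw [hp]; simp [add_assoc]
  · intro e he
    rw [e1, ind_pos (h.aY 0 h0 he)]; omega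
  · intro e he
    rw [e1, ind_pos (h.bY 0 h0 he)]; omega
  · intro e he
    rw [h.spa 0 h0]
    rw [e1] at he
    by_cases hy : e ∈ Y 0
    · exact h.DS e (h.YD 0 h0 hy)
    · by_cases hj : e ∈ J
      · exact h.DS e (hJ hj)
      · exfalso
        rw [ind_zero hy, ind_zero hj] at he; omega
  · rw [h.spa 0 h0]; exact hy _ (by simp)
  · rw [h.spa 0 h0]; exact hy _ (by simp)

lemma qt_step (h : Uni x S D Y a b m) (k n : ℕ) (hkm : k + 3 ≤ m) (hk : QT x S D Y k n) :
    QT x S D Y (k + 3) (n + 6) := by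
  intro J hJ ys hl hy hp
  obtain ⟨z1, z2, z3, t1, rfl, hl1⟩ := length_cons3 (n := n + 3) (by omega : ys.length = n + 3 + 3)
  obtain ⟨z4, z5, z6, t, rfl, hl2⟩ := length_cons3 hl1
  obtain ⟨w1, w2, J', hJ'ab, d1, d2, p1, p2, hsum⟩ :=
    tripleT x S (Y (k + 2)) (Y (k + 1)) (Y k) J (a (k + 2)) (b (k + 2)) (a (k + 1)) (b (k + 1)) (a k) (b k)
      z1 z2 z3 z4 z5 z6 (hy _ (by simp)) (hy _ (by simp)) (hy _ (by simp)) (hy _ (by simp)) (hy _ (by simp))
      (hy _ (by simp))
      (h.aY _ (by omega)) (h.bY _ (by omega)) (h.ab _ (by omega)) (h.spa _ (by omega)) (h.spb _ (by omega))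
      (h.aY _ (by omega)) (h.bY _ (by omega)) (h.ab _ (by omega)) (h.spa _ (by omega)) (h.spb _ (by omega))
      (h.aY _ (by omega)) (h.bY _ (by omega)) (h.ab _ (by omega)) (h.spa _ (by omega)) (h.spb _ (by omega))
      (fun e he => h.DS e (h.YD _ (by omega) he)) (fun e he => h.DS e (h.YD _ (by omega) he))
      (fun e he => h.DS e (h.YD _ (by omega) he)) (fun e he => h.DS e (hJ he))
  have tot : ∀ e, pu Y (k + 3) J e = (w1 e + w2 e) + pu Y k J' e := by
    intro e
    have := hsum e
    simp only [pu]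
    rw [sum_range_succ, sum_range_succ, sum_range_succ]
    omega
  have hJ'D : J' ⊆ D := by
    intro e he
    rcases mem_union.1 (hJ'ab he) with h' | h'
    · exact h.YD k (by omega) (h.aY k (by omega) h')
    · exact h.YD k (by omega) (h.bY k (by omega) h')
  have hpar : par x (pu Y k J') = t.sum := by
    have e1 : pu Y (k + 3) J = fun e => (fun e => w1 e + w2 e) e + pu Y k J' e := funext tot
    rw [e1, par_add, par_add, p1, p2] at hp
    simp only [List.sum_cons] at hp
    have h2 : (z1 + z2 + z3 + (z4 + z5 + z6)) + par x (pu Y k J')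
        = (z1 + z2 + z3 + (z4 + z5 + z6)) + t.sum := by
      rw [hp]; abel
    exact add_left_cancel h2
  have hdec := hk J' hJ'D t hl2 (fun y hy' => hy y (by simp [hy'])) hpar
  have hall := (d1.add d2).add hdec
  exact DecT.congr hall tot

lemma qt_all (h : Uni x S D Y a b m) (q : ℕ) :
    (3 * q ≤ m → QT x S D Y (3 * q) (6 * q + 1)) ∧ (3 * q + 1 ≤ m → QT x S D Y (3 * q + 1) (6 * q + 3)) := by
  induction q with
  | zero => exact ⟨fun _ => qt_zero, fun hm => qt_one h hm⟩
  | succ q ih =>
    refine ⟨fun hm => ?_, fun hm => ?_⟩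
    · exact qt_step h (3 * q) (6 * q + 1) (by omega) (ih.1 (by omega))
    · exact qt_step h (3 * q + 1) (6 * q + 3) (by omega) (ih.2 (by omega))

/-- the number of sets used for weights up to `m` -/
def slots (m : ℕ) : ℕ := if m % 3 = 2 then 2 * m else 2 * m + 1

/-- the decomposition theorem with targets -/
theorem uni_dec (h : Uni x S D Y a b m) (ys : List W) (hl : ys.length = slots m) (hy : ∀ y ∈ ys, y ∈ S)
    (hp : par x (pu Y m ∅) = ys.sum) : DecT x (pu Y m ∅) ys := by
  have h3 : m % 3 = 0 ∨ m % 3 = 1 ∨ m % 3 = 2 := by omega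
  unfold slots at hl
  rcases h3 with h3 | h3 | h3
  · rw [if_neg (by omega)] at hl
    have hq := (qt_all h (m / 3)).1 (by omega)
    have e1 : 3 * (m / 3) = m := by omega
    rw [e1] at hq
    exact hq ∅ (empty_subset _) ys (by omega) hy hp
  · rw [if_neg (by omega)] at hl
    have hq := (qt_all h (m / 3)).2 (by omega)
    have e1 : 3 * (m / 3) + 1 = m := by omega
    rw [e1] at hq
    exact hq ∅ (empty_subset _) ys (by omega) hy hp
  · rw [if_pos h3] at hl
    obtain ⟨k, hk⟩ : ∃ k, m = k + 2 := ⟨m - 2, by omega⟩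
    subst hk
    obtain ⟨z1, z2, z3, t, rfl, hl2⟩ := length_cons3 (n := 2 * k + 1) (by omega : ys.length = 2 * k + 1 + 3)
    -- the top layer
    set u : E → ℕ := fun e => ind (Y (k + 1)) e + ind (Y k) e with hu
    have mu : par x u ∈ S := by
      apply par_mem
      intro e he
      by_cases h1 : e ∈ Y (k + 1)
      · exact h.DS e (h.YD _ (by omega) h1)
      · by_cases h2 : e ∈ Y k
        · exact h.DS e (h.YD _ (by omega) h2)
        · exact absurd (by simp [hu, ind_zero h1, ind_zero h2]) he
    obtain ⟨j, hj, w, hw, hpw⟩ := flipT x u (a k) (z1 + z2 + z3)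
      (fun e he => by simp only [hu, ind_pos (h.aY k (by omega) he)]; omega)
      (by
        rw [h.spa k (by omega)]
        exact S.add_mem mu (S.add_mem (S.add_mem (hy _ (by simp)) (hy _ (by simp))) (hy _ (by simp))))
    have wpos : ∀ e ∈ Y (k + 1), 1 ≤ w e := by
      intro e he
      have h1 := hw e
      by_cases h' : e ∈ j
      · simp only [hu, ind_pos he, ind_pos (h.aY k (by omega) (hj h')), ind_pos h'] at h1; omega
      · simp only [hu, ind_pos he, ind_zero h'] at h1; omega
    have wd : DecT x w [z1, z2, z3] := by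
      refine layerT x w ?_ z1 z2 z3 hpw (a (k + 1)) (b (k + 1)) (h.ab _ (by omega))
        (fun e he => wpos e (h.aY _ (by omega) he))
        (fun e he => wpos e (h.bY _ (by omega) he)) (by rw [h.spa _ (by omega), h.spb _ (by omega)]) ?_
        (by rw [h.spa _ (by omega)]; exact hy _ (by simp)) (by rw [h.spa _ (by omega)]; exact hy _ (by simp))
      · intro e
        have h1 := hw e
        have i1 := ind_le (Y (k + 1)) e
        have i2 := ind_le (Y k) e
        simp only [hu] at h1; omega
      · intro e he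
        rw [h.spa _ (by omega)]
        by_cases h1 : e ∈ Y (k + 1)
        · exact h.DS e (h.YD _ (by omega) h1)
        · exfalso
          have h2 := hw e
          have i2 := ind_le (Y k) e
          simp only [hu, ind_zero h1] at h2; omega
    have tot : ∀ e, pu Y (k + 2) ∅ e = w e + pu Y k j e := by
      intro e
      have h1 := hw e
      simp only [pu]
      rw [sum_range_succ, sum_range_succ]
      simp only [hu] at h1
      have : ind (∅ : Finset E) e = 0 := by simp [ind]
      omega
    have hjD : j ⊆ D := fun e he => h.YD k (by omega) (h.aY k (by omega) (hj he))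
    have hpar : par x (pu Y k j) = t.sum := by
      have e1 : pu Y (k + 2) ∅ = fun e => w e + pu Y k j e := funext tot
      rw [e1, par_add, hpw] at hp
      simp only [List.sum_cons] at hp
      have h2 : (z1 + z2 + z3) + par x (pu Y k j) = (z1 + z2 + z3) + t.sum := by
        rw [hp]; abel
      exact add_left_cancel h2
    have hq := (qt_all h (k / 3)).1 (by omega)
    have hk3 : 3 * (k / 3) = k := by omega
    have hk6 : 6 * (k / 3) + 1 = 2 * k + 1 := by omega
    rw [hk3, hk6] at hq
    have hdec := hq j hjD t hl2 (fun y hy' => hy y (by simp [hy'])) hpar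
    exact DecT.congr (wd.add hdec) tot

section piece

variable [Module.Finite (ZMod 2) W]

/-- a strong piece -/
theorem piece (x : E → W) (p : E → ℕ) (m : ℕ) (hm : 1 ≤ m) (D : Finset E) (hpm : ∀ e, p e ≤ m)
    (h0 : ∀ e, e ∉ D → p e = 0) (hS : Strong (vr x) p m D) (ys : List W) (hl : ys.length = slots m)
    (hy : ∀ y ∈ ys, y ∈ sp x D) (hp : par x p = ys.sum) : DecT x p ys := by
  classical
  set R := vr x with hR
  have hmQ : (0 : ℚ) < (m : ℚ) := by exact_mod_cast hm
  obtain ⟨X, hX1, hX2⟩ := pack_card R (fun _ => D) m p (fun e => if e ∈ D then (p e : ℚ) / (m : ℚ) else 0)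
    (by
      intro i _ F hF
      have h1 := hS F hF
      have h2 : (2 * m * R.r D : ℚ) ≤ 2 * m * R.r F + ∑ e ∈ D \ F, (p e : ℚ) := by exact_mod_cast h1
      have h3 : ∑ e ∈ D \ F, (if e ∈ D then (p e : ℚ) / (m : ℚ) else 0) = (∑ e ∈ D \ F, (p e : ℚ)) / m := by
        rw [sum_div]
        apply sum_congr rfl
        intro e he
        rw [if_pos (mem_sdiff.1 he).1]
      rw [h3, le_div_iff₀ hmQ]
      nlinarith)
    (by
      intro e
      by_cases he : e ∈ D
      · simp only [he, filter_true, card_range, if_true]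
        rw [mul_div_cancel₀ _ hmQ.ne']
      · simp [he])
    (by
      intro e
      split_ifs with he
      · rw [div_le_one hmQ]
        exact_mod_cast hpm e
      · norm_num)
  have hsplit : ∀ i, ∃ a b : Finset E, i < m → a ∪ b = X i ∧ Disjoint a b ∧ (X i).card ≤ R.r a + R.r b := by
    intro i
    by_cases hi : i < m
    · obtain ⟨a, b, h⟩ := split R (X i) (hX1 i hi).2.1
      exact ⟨a, b, fun _ => h⟩
    · exact ⟨∅, ∅, fun h => absurd h hi⟩
  choose a b hab using hsplit
  have hI : ∀ e, ∃ I : Finset ℕ, (range m).filter (fun i => e ∈ X i) ⊆ I ∧ I ⊆ range m ∧ I.card = p e := by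
    intro e
    obtain ⟨I, hI1, hI2, hI3⟩ := exists_subsuperset_card_eq (filter_subset (fun i => e ∈ X i) (range m)) (hX2 e)
      (by rw [card_range]; exact hpm e)
    exact ⟨I, hI1, hI2, hI3⟩
  choose I hI using hI
  set Y : ℕ → Finset E := fun i => univ.filter (fun e => i ∈ I e) with hY
  have hXY : ∀ i < m, X i ⊆ Y i := by
    intro i hi e he
    rw [hY, mem_filter]
    exact ⟨mem_univ _, (hI e).1 (mem_filter.2 ⟨mem_range.2 hi, he⟩)⟩
  have hYD : ∀ i < m, Y i ⊆ D := by
    intro i _ e he
    rw [hY, mem_filter] at he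
    by_contra hD
    have h1 := (hI e).2.2
    rw [h0 e hD, card_eq_zero] at h1
    rw [h1] at he
    exact absurd he.2 (by simp)
  have hspan : ∀ i < m, sp x (a i) = sp x D ∧ sp x (b i) = sp x D := by
    intro i hi
    obtain ⟨h1, h2, h3⟩ := hab i hi
    have haX : a i ⊆ X i := by rw [← h1]; exact subset_union_left
    have hbX : b i ⊆ X i := by rw [← h1]; exact subset_union_right
    have haE := haX.trans (hX1 i hi).1
    have hbE := hbX.trans (hX1 i hi).1
    have r1 := R.mono haE
    have r2 := R.mono hbE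
    have r3 := (hX1 i hi).2.2
    exact ⟨sp_eq_of_rank x haE (by show R.r _ ≤ R.r _; omega),
      sp_eq_of_rank x hbE (by show R.r _ ≤ R.r _; omega)⟩
  have hU : Uni x (sp x D) D Y a b m := by
    refine ⟨?_, ?_, hYD, ?_, fun i hi => (hspan i hi).1, fun i hi => (hspan i hi).2, fun e he => mem_sp x he⟩
    · intro i hi
      refine subset_trans ?_ (hXY i hi)
      rw [← (hab i hi).1]; exact subset_union_left
    · intro i hi
      refine subset_trans ?_ (hXY i hi)
      rw [← (hab i hi).1]; exact subset_union_right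
    · intro i hi; exact (hab i hi).2.1
  have hpu : ∀ e, p e = pu Y m ∅ e := by
    intro e
    have e1 : pu Y m ∅ e = ((range m).filter (fun i => i ∈ I e)).card := by
      simp only [pu, ind, hY, mem_filter, mem_univ, true_and, notMem_empty, if_false, add_zero]
      rw [card_filter]
    rw [e1, ← (hI e).2.2]
    congr 1
    ext i
    rw [mem_filter]
    exact ⟨fun h => ⟨(hI e).2.1 h, h⟩, fun h => h.2⟩
  have hpe : p = pu Y m ∅ := funext hpu
  have hfin := uni_dec hU ys hl hy (by rw [← hpe]; exact hp)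
  exact DecT.congr hfin hpu

end piece

end Pool.Agent.Helper97.CC
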