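import Pool.Agent.Helper55.RotaRado
import Pool.Agent.Helper97.CC.Layer

/-!
Rank functions: sums, products, the rank function of the union of `k` copies, Rado's theorem with a defect.
-/

set_option autoImplicit false
set_option linter.unusedSectionVars false

namespace Pool.Agent.Helper97.CC

open Finset Pool.Agent.Helper55.Rota

section gen

variable {α β κ : Type} [DecidableEq α] [DecidableEq β] [DecidableEq κ]

/-- the free rank function -/
def cardRank (β : Type) [DecidableEq β] : RankFn β where
  r X := X.card
  empty := rfl
  mono h := card_le_card h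
  insert_le X x := card_insert_le x X
  submod X Y := (card_union_add_card_inter X Y).le

/-- direct sum -/
def sumRank (R : RankFn α) (S : RankFn β) : RankFn (α ⊕ β) where
  r X := R.r X.toLeft + S.r X.toRight
  empty := by
    have h1 : (∅ : Finset (α ⊕ β)).toLeft = ∅ := by ext a; simp
    have h2 : (∅ : Finset (α ⊕ β)).toRight = ∅ := by ext a; simp
    rw [h1, h2, R.empty, S.empty]
  mono {X Y} h := by
    have h1 := R.mono (toLeft_subset_toLeft h)
    have h2 := S.mono (toRight_subset_toRight h)
    omega
  insert_le X x := by
    rcases x with x | x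
    · rw [toLeft_insert_inl, toRight_insert_inl]
      have := R.insert_le X.toLeft x
      omega
    · rw [toLeft_insert_inr, toRight_insert_inr]
      have := S.insert_le X.toRight x
      omega
  submod X Y := by
    rw [toLeft_union, toRight_union, toLeft_inter, toRight_inter]
    have h1 := R.submod X.toLeft Y.toLeft
    have h2 := S.submod X.toRight Y.toRight
    omega

/-- slice -/
def slice (i : κ) (X : Finset (α × κ)) : Finset α := (X.filter (fun z => z.2 = i)).image Prod.fst

lemma mem_slice {i : κ} {X : Finset (α × κ)} {e : α} : e ∈ slice i X ↔ (e, i) ∈ X := by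
  unfold slice
  simp only [mem_image, mem_filter]
  constructor
  · rintro ⟨⟨e', j⟩, ⟨hj, rfl⟩, rfl⟩; exact hj
  · intro h; exact ⟨(e, i), ⟨h, rfl⟩, rfl⟩

/-- product with a finite index set -/
def prodRank (S : Finset κ) (R : RankFn α) : RankFn (α × κ) where
  r X := ∑ i ∈ S, R.r (slice i X)
  empty := by
    apply sum_eq_zero
    intro i _
    have : slice i (∅ : Finset (α × κ)) = ∅ := by ext e; simp [mem_slice]
    rw [this, R.empty]
  mono {X Y} h := by
    apply sum_le_sum
    intro i _
    apply R.mono
    intro e he
    rw [mem_slice] at he ⊢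
    exact h he
  insert_le X z := by
    obtain ⟨e, j⟩ := z
    have h1 : ∀ i ∈ S, R.r (slice i (insert (e, j) X)) ≤ R.r (slice i X) + (if i = j then 1 else 0) := by
      intro i _
      by_cases hij : i = j
      · subst hij
        have : slice i (insert (e, i) X) = insert e (slice i X) := by
          ext f; simp [mem_slice]
        rw [this]
        simpa using R.insert_le (slice i X) e
      · have : slice i (insert (e, j) X) = slice i X := by
          ext f; simp only [mem_slice, mem_insert, Prod.mk.injEq]
          constructor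
          · rintro (h | h)
            · exact absurd h.2 hij
            · exact h
          · intro h; exact Or.inr h
        rw [this]; simp
    refine (sum_le_sum h1).trans ?_
    rw [sum_add_distrib]
    have h2 : ∑ i ∈ S, (if i = j then 1 else 0) ≤ 1 := by
      rw [sum_ite_eq' S j (fun _ => 1)]
      split_ifs <;> simp
    omega
  submod X Y := by
    rw [← sum_add_distrib, ← sum_add_distrib]
    apply sum_le_sum
    intro i _
    have h1 : slice i (X ∪ Y) = slice i X ∪ slice i Y := by ext e; simp [mem_slice]
    have h2 : slice i (X ∩ Y) = slice i X ∩ slice i Y := by ext e; simp [mem_slice]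
    rw [h1, h2]
    exact R.submod _ _

/-- the value `min over B ⊆ F of 2 r(B) + |F - B|` -/
def convFn (R : RankFn α) (F : Finset α) : ℕ :=
  F.powerset.inf' ⟨∅, by simp⟩ (fun B => 2 * R.r B + (F \ B).card)

lemma convFn_le (R : RankFn α) {F B : Finset α} (h : B ⊆ F) : convFn R F ≤ 2 * R.r B + (F \ B).card :=
  inf'_le _ (mem_powerset.2 h)

lemma convFn_ex (R : RankFn α) (F : Finset α) : ∃ B ⊆ F, convFn R F = 2 * R.r B + (F \ B).card := by
  obtain ⟨B, hB, h⟩ := exists_mem_eq_inf' (s := F.powerset) ⟨∅, by simp⟩
    (fun B => 2 * R.r B + (F \ B).card)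
  exact ⟨B, mem_powerset.1 hB, h⟩

lemma card_sdiff_le {X Y B1 B2 : Finset α} (h1 : B1 ⊆ X) (h2 : B2 ⊆ Y) :
    ((X ∪ Y) \ (B1 ∪ B2)).card + ((X ∩ Y) \ (B1 ∩ B2)).card ≤ (X \ B1).card + (Y \ B2).card := by
  have e1 := card_sdiff_add_card_eq_card (union_subset_union h1 h2)
  have e2 := card_sdiff_add_card_eq_card (inter_subset_inter h1 h2)
  have e3 := card_sdiff_add_card_eq_card h1
  have e4 := card_sdiff_add_card_eq_card h2
  have e5 := card_union_add_card_inter X Y
  have e6 := card_union_add_card_inter B1 B2
  omega

/-- the rank function of the union of two copies -/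
def convRank (R : RankFn α) : RankFn α where
  r := convFn R
  empty := by
    have := convFn_le R (F := ∅) (B := ∅) (Subset.refl _)
    simp [R.empty] at this
    exact this
  mono {X Y} h := by
    obtain ⟨B, hB, h1⟩ := convFn_ex R Y
    rw [h1]
    refine (convFn_le R (B := B ∩ X) inter_subset_right).trans ?_
    have h2 := R.mono (inter_subset_left : B ∩ X ⊆ B)
    have h3 : (X \ (B ∩ X)).card ≤ (Y \ B).card := by
      apply card_le_card
      intro e he
      rw [mem_sdiff, mem_inter] at he
      rw [mem_sdiff]
      exact ⟨h he.1, fun h' => he.2 ⟨h', he.1⟩⟩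
    omega
  insert_le X x := by
    obtain ⟨B, hB, h1⟩ := convFn_ex R X
    rw [h1]
    refine (convFn_le R (B := B) (hB.trans (subset_insert _ _))).trans ?_
    have : (insert x X \ B).card ≤ (X \ B).card + 1 := by
      refine (card_le_card (t := insert x (X \ B)) ?_).trans (card_insert_le _ _)
      intro e he
      rw [mem_sdiff, mem_insert] at he
      rw [mem_insert, mem_sdiff]
      tauto
    omega
  submod X Y := by
    obtain ⟨B1, hB1, h1⟩ := convFn_ex R X
    obtain ⟨B2, hB2, h2⟩ := convFn_ex R Y
    have h3 := convFn_le R (union_subset_union hB1 hB2)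
    have h4 := convFn_le R (inter_subset_inter hB1 hB2)
    have h5 := R.submod B1 B2
    have h6 := card_sdiff_le hB1 hB2
    omega

/-- Rado's theorem with defect `d` -/
theorem rado_defect {ι : Type} [DecidableEq ι] [Nonempty α] (R : RankFn α) (J₀ : Finset ι) (A : ι → Finset α)
    (d : ℕ) (h : ∀ J ⊆ J₀, J.card ≤ R.r (J.biUnion A) + d) :
    ∃ J1 ⊆ J₀, ∃ f : ι → α, (∀ j ∈ J1, f j ∈ A j) ∧ J1.card ≤ R.r (J1.image f) ∧
      J₀.card ≤ J1.card + d := by
  classical
  set R' := sumRank R (cardRank (Fin d)) with hR'
  set A' : ι → Finset (α ⊕ Fin d) := fun j => (A j).disjSum univ with hA'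
  obtain ⟨g, hg1, hg2⟩ := RankFn.rado R' J₀ _ A' rfl (by
    intro J hJ
    by_cases hne : J.Nonempty
    · have h1 : R'.r (J.biUnion A') = R.r (J.biUnion A) + d := by
        show R.r _ + _ = _
        have e1 : (J.biUnion A').toLeft = J.biUnion A := by
          ext a; simp [hA', mem_biUnion]
        have e2 : (J.biUnion A').toRight = univ := by
          ext a
          simp only [mem_toRight, mem_biUnion, hA', inr_mem_disjSum, mem_univ, and_true, iff_true]
          exact hne
        rw [e1, e2]
        show R.r _ + (univ : Finset (Fin d)).card = _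
        simp
      rw [h1]; exact h J hJ
    · rw [not_nonempty_iff_eq_empty] at hne
      subst hne; simp)
  set J1 := J₀.filter (fun j => (g j).isLeft = true) with hJ1
  obtain ⟨a0⟩ := (inferInstance : Nonempty α)
  set f : ι → α := fun j => (g j).elim id (fun _ => a0) with hf
  have hgl : ∀ j ∈ J1, g j = Sum.inl (f j) := by
    intro j hj
    have := (mem_filter.1 hj).2
    simp only [hf]
    rcases hgj : g j with z | z
    · simp
    · rw [hgj] at this; simp at this
  have hR : R'.r (J₀.image g) = R.r (J1.image f) + ((J₀.image g).toRight).card := by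
    show R.r _ + _ = _
    have e1 : (J₀.image g).toLeft = J1.image f := by
      ext z
      simp only [mem_toLeft, mem_image]
      constructor
      · rintro ⟨j, hj, hz⟩
        have hj1 : j ∈ J1 := mem_filter.2 ⟨hj, by rw [hz]; rfl⟩
        refine ⟨j, hj1, ?_⟩
        have := hgl j hj1
        rw [hz] at this
        exact (Sum.inl.inj this).symm
      · rintro ⟨j, hj, hz⟩
        exact ⟨j, (mem_filter.1 hj).1, by rw [hgl j hj, hz]⟩
    rw [e1]; rfl
  have hc1 : ((J₀.image g).toRight).card ≤ d := by
    simpa using card_le_univ ((J₀.image g).toRight)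
  have hc2 : ((J₀.image g).toRight).card ≤ (J₀ \ J1).card := by
    have : (J₀.image g).toRight.map ⟨Sum.inr, Sum.inr_injective⟩ ⊆ (J₀ \ J1).image g := by
      intro z hz
      simp only [mem_map, mem_toRight, mem_image, Function.Embedding.coeFn_mk] at hz
      obtain ⟨w, ⟨j, hj, hw⟩, rfl⟩ := hz
      refine mem_image.2 ⟨j, mem_sdiff.2 ⟨hj, ?_⟩, hw⟩
      intro h'
      have := (mem_filter.1 h').2
      rw [hw] at this; simp at this
    have h3 := card_le_card this
    rw [card_map] at h3
    exact h3.trans card_image_le
  have hc3 := card_sdiff_add_card_eq_card (filter_subset (fun j => (g j).isLeft = true) J₀)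
  rw [← hJ1] at hc3
  have hle := R.le_card (J1.image f)
  have hle2 : (J1.image f).card ≤ J1.card := card_image_le
  refine ⟨J1, filter_subset _ _, f, ?_, ?_, ?_⟩
  · intro j hj
    have h1 := hg1 j (mem_filter.1 hj).1
    rw [hgl j hj] at h1
    simpa [hA'] using h1
  · omega
  · omega

end gen

section vec

variable {E : Type} [Fintype E] [DecidableEq E] {W : Type} [AddCommGroup W] [Module (ZMod 2) W]
  [Module.Finite (ZMod 2) W]

/-- the rank function of the vectors -/
noncomputable def vr (x : E → W) : RankFn E where
  r F := Module.finrank (ZMod 2) (sp x F)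
  empty := by
    have : sp x (∅ : Finset E) = ⊥ := by simp [sp]
    rw [this, finrank_bot]
  mono h := Submodule.finrank_mono (sp_mono x h)
  insert_le X e := by
    have h1 : sp x (insert e X) = sp x {e} ⊔ sp x X := by
      unfold sp
      rw [← Submodule.span_union, ← Set.image_union]
      congr 2
      ext z; simp
    rw [h1]
    have h2 := Submodule.finrank_add_le_finrank_add_finrank (sp x {e}) (sp x X)
    have h3 : Module.finrank (ZMod 2) (sp x {e}) ≤ 1 := by
      unfold sp
      rw [coe_singleton, Set.image_singleton]
      exact (finrank_span_le_card ({x e} : Set W)).trans (by simp)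
    omega
  submod X Y := by
    have h1 : sp x (X ∪ Y) = sp x X ⊔ sp x Y := by
      unfold sp
      rw [← Submodule.span_union, ← Set.image_union]
      congr 2
      ext z; simp
    have h2 : sp x (X ∩ Y) ≤ sp x X ⊓ sp x Y :=
      le_inf (sp_mono x inter_subset_left) (sp_mono x inter_subset_right)
    have h3 := Submodule.finrank_sup_add_finrank_inf_eq (sp x X) (sp x Y)
    have h4 := Submodule.finrank_mono h2
    rw [h1]
    omega

lemma sp_eq_of_rank (x : E → W) {F G : Finset E} (h : F ⊆ G) (hr : (vr x).r G ≤ (vr x).r F) :
    sp x F = sp x G :=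
  Submodule.eq_of_le_of_finrank_le (sp_mono x h) hr

/-- a set which is independent in the union of two copies splits into two independent sets -/
lemma split (R : RankFn E) (X : Finset E) (h : ∀ B ⊆ X, B.card ≤ 2 * R.r B) :
    ∃ a b : Finset E, a ∪ b = X ∧ Disjoint a b ∧ X.card ≤ R.r a + R.r b := by
  classical
  rcases X.eq_empty_or_nonempty with rfl | ⟨e0, _⟩
  · exact ⟨∅, ∅, by simp, by simp, by simp⟩
  have : Nonempty (E × Bool) := ⟨(e0, true)⟩
  obtain ⟨f, hf1, hf2⟩ := RankFn.rado (prodRank (univ : Finset Bool) R) X _
    (fun e => ({(e, false), (e, true)} : Finset (E × Bool))) rfl (by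
      intro J hJ
      refine (h J hJ).trans ?_
      show _ ≤ ∑ i : Bool, R.r (slice i _)
      have : ∀ i : Bool, slice i (J.biUnion (fun e => ({(e, false), (e, true)} : Finset (E × Bool)))) = J := by
        intro i
        ext e
        rw [mem_slice]
        cases i <;> simp
      simp only [this]
      simp [two_mul])
  have hfst : ∀ e ∈ X, (f e).1 = e := by
    intro e he
    have := hf1 e he
    simp only [mem_insert, mem_singleton] at this
    rcases this with h | h <;> rw [h]
  refine ⟨X.filter (fun e => (f e).2 = false), X.filter (fun e => (f e).2 = true), ?_, ?_, ?_⟩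
  · ext e
    simp only [mem_union, mem_filter]
    constructor
    · rintro (h | h) <;> exact h.1
    · intro h
      cases hb : (f e).2
      · exact Or.inl ⟨h, rfl⟩
      · exact Or.inr ⟨h, rfl⟩
  · rw [disjoint_filter]
    intro e _ h1 h2
    rw [h1] at h2; exact absurd h2 (by simp)
  · refine hf2.trans ?_
    show ∑ i : Bool, R.r (slice i _) ≤ _
    have hs : ∀ i : Bool, slice i (X.image f) = X.filter (fun e => (f e).2 = i) := by
      intro i
      ext e
      rw [mem_slice, mem_image, mem_filter]
      constructor
      · rintro ⟨e', he', h⟩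
        have h1 := hfst e' he'
        rw [h] at h1
        simp only at h1
        subst h1
        exact ⟨he', by rw [h]⟩
      · rintro ⟨he, h⟩
        exact ⟨e, he, Prod.ext (hfst e he) h⟩
    simp only [hs]
    simp [add_comm]

end vec

end Pool.Agent.Helper97.CC
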