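import Pool.Agent.Helper97.CC.Pack
import Pool.Agent.Helper97.CC.Main

/-!
The main theorem for vectors over GF(2): if every element `e` with `p e ≥ 2` lies in a `p e`-strong set, then an
even weight `p` is a sum of even sets.
-/

set_option autoImplicit false
set_option linter.unusedSectionVars false

namespace Pool.Agent.Helper97.CC

open Finset Pool.Agent.Helper55.Rota

variable {E : Type} [Fintype E] [DecidableEq E]

/-- `D` is `s`-strong: `p (D - F) ≥ 2 s (r D - r F)` for all `F ⊆ D` -/
def Strong (R : RankFn E) (p : E → ℕ) (s : ℕ) (D : Finset E) : Prop :=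
  ∀ F ⊆ D, 2 * s * R.r D ≤ 2 * s * R.r F + ∑ e ∈ D \ F, p e

lemma Strong.empty (R : RankFn E) (p : E → ℕ) (s : ℕ) : Strong R p s ∅ := by
  intro F hF
  rw [subset_empty] at hF
  subst hF; simp

lemma Strong.mono {R : RankFn E} {p : E → ℕ} {s s' : ℕ} {D : Finset E} (h : Strong R p s D)
    (hs : s' ≤ s) : Strong R p s' D := by
  intro F hF
  have h1 := h F hF
  have h2 := R.mono hF
  obtain ⟨t, rfl⟩ := Nat.exists_eq_add_of_le hs
  have h3 : 2 * t * R.r F ≤ 2 * t * R.r D := Nat.mul_le_mul_left _ h2
  have h4 : 2 * (s' + t) * R.r D = 2 * s' * R.r D + 2 * t * R.r D := by ring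
  have h5 : 2 * (s' + t) * R.r F = 2 * s' * R.r F + 2 * t * R.r F := by ring
  omega

lemma Strong.union {R : RankFn E} {p : E → ℕ} {s : ℕ} {D D' : Finset E} (h : Strong R p s D)
    (h' : Strong R p s D') : Strong R p s (D ∪ D') := by
  intro F hF
  have h1 := h (F ∩ D) inter_subset_right
  have h2 := h' (D' ∩ (D ∪ F)) inter_subset_left
  have h3 := R.submod D' (D ∪ F)
  have h3' : R.r (D ∪ D') ≤ R.r (D' ∪ (D ∪ F)) := R.mono (by
    intro e he; simp only [mem_union] at he ⊢; tauto)
  have h4 := R.submod D F
  have e1 : D ∩ F = F ∩ D := inter_comm _ _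
  rw [e1] at h4
  have h5 : ∑ e ∈ D \ (F ∩ D), p e + ∑ e ∈ D' \ (D' ∩ (D ∪ F)), p e ≤ ∑ e ∈ (D ∪ D') \ F, p e := by
    rw [← sum_union]
    · apply sum_le_sum_of_subset
      intro e he
      simp only [mem_union, mem_sdiff, mem_inter] at he ⊢
      tauto
    · rw [Finset.disjoint_left]
      intro e he he'
      simp only [mem_union, mem_sdiff, mem_inter] at he he'
      tauto
  -- multiply the rank inequality by 2 s
  have h6 : R.r (D ∪ D') + (R.r (F ∩ D) + R.r (D' ∩ (D ∪ F))) ≤ R.r F + (R.r D + R.r D') := by omega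
  have h7 := Nat.mul_le_mul_left (2 * s) h6
  rw [Nat.mul_add, Nat.mul_add, Nat.mul_add, Nat.mul_add] at h7
  omega

/-- the largest `s`-strong set -/
noncomputable def big (R : RankFn E) (p : E → ℕ) (s : ℕ) : Finset E := by
  classical
  exact ((univ : Finset (Finset E)).filter (fun D => Strong R p s D)).biUnion id

lemma mem_big {R : RankFn E} {p : E → ℕ} {s : ℕ} {e : E} :
    e ∈ big R p s ↔ ∃ D, Strong R p s D ∧ e ∈ D := by
  classical
  simp [big]

lemma big_strong (R : RankFn E) (p : E → ℕ) (s : ℕ) : Strong R p s (big R p s) := by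
  classical
  unfold big
  have : ∀ S : Finset (Finset E), (∀ D ∈ S, Strong R p s D) → Strong R p s (S.biUnion id) := by
    intro S
    induction S using Finset.induction_on with
    | empty => intro _; simpa using Strong.empty R p s
    | insert D S _ ih =>
      intro h
      rw [biUnion_insert]
      exact (h D (mem_insert_self _ _)).union (ih (fun D' h' => h D' (mem_insert_of_mem h')))
  exact this _ (fun D hD => (mem_filter.1 hD).2)

lemma big_anti {R : RankFn E} {p : E → ℕ} {s s' : ℕ} (h : s' ≤ s) : big R p s ⊆ big R p s' := by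
  intro e he
  rw [mem_big] at he ⊢
  obtain ⟨D, h1, h2⟩ := he
  exact ⟨D, h1.mono h, h2⟩

/-- the levels, cut off at `m` -/
noncomputable def lev (R : RankFn E) (p : E → ℕ) (m i : ℕ) : Finset E :=
  if i < m then big R p (i + 1) else ∅

lemma lev_anti (R : RankFn E) (p : E → ℕ) (m i j : ℕ) (h : i ≤ j) : lev R p m j ⊆ lev R p m i := by
  unfold lev
  by_cases hj : j < m
  · rw [if_pos hj, if_pos (by omega)]
    exact big_anti (by omega)
  · rw [if_neg hj]; exact empty_subset _

/-- the number of levels containing `e` -/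
noncomputable def nl (R : RankFn E) (p : E → ℕ) (m : ℕ) (e : E) : ℕ :=
  ((range m).filter (fun i => e ∈ lev R p m i)).card

lemma filter_eq (R : RankFn E) (p : E → ℕ) (m : ℕ) (e : E) :
    (range m).filter (fun i => e ∈ lev R p m i) = range (nl R p m e) := by
  have h : ∀ (S : Finset ℕ), (∀ i ∈ S, ∀ j ≤ i, j ∈ S) → S = range S.card := by
    intro S hS
    symm
    apply eq_of_subset_of_card_le
    · intro j hj
      rw [mem_range] at hj
      by_contra hcon
      have : S ⊆ range j := by
        intro i hi
        rw [mem_range]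
        by_contra h'
        exact hcon (hS i hi j (by omega))
      have := card_le_card this
      rw [card_range] at this
      omega
    · simp
  apply h
  intro i hi j hj
  rw [mem_filter, mem_range] at hi ⊢
  exact ⟨by omega, lev_anti R p m j i hj hi.2⟩

lemma mem_lev_iff (R : RankFn E) (p : E → ℕ) (m i : ℕ) (e : E) :
    e ∈ lev R p m i ↔ i < nl R p m e := by
  have h := filter_eq R p m e
  constructor
  · intro he
    have : i ∈ (range m).filter (fun i => e ∈ lev R p m i) := by
      rw [mem_filter, mem_range]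
      refine ⟨?_, he⟩
      by_contra h'
      unfold lev at he
      rw [if_neg h'] at he
      simp at he
    rw [h, mem_range] at this
    exact this
  · intro hi
    have : i ∈ range (nl R p m e) := mem_range.2 hi
    rw [← h, mem_filter] at this
    exact this.2

/-- the density -/
noncomputable def dens (R : RankFn E) (p : E → ℕ) (m : ℕ) (e : E) : ℚ := (p e : ℚ) / (nl R p m e : ℚ)

lemma dens_ineq (R : RankFn E) (p : E → ℕ) (m : ℕ) : ∀ k i, i + k = m → ∀ F ⊆ lev R p m i,
    2 * (R.r (lev R p m i) : ℚ) - 2 * (R.r F : ℚ) ≤ ∑ e ∈ lev R p m i \ F, dens R p m e := by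
  intro k
  induction k with
  | zero =>
    intro i hi F hF
    have : lev R p m i = ∅ := by unfold lev; rw [if_neg (by omega)]
    rw [this] at hF ⊢
    rw [subset_empty] at hF
    subst hF; simp
  | succ k ih =>
    intro i hi F hF
    set G := lev R p m (i + 1) with hG
    set D := lev R p m i with hD
    have hGD : G ⊆ D := lev_anti R p m i (i + 1) (by omega)
    have h1 := ih (i + 1) (by omega) (F ∩ G) inter_subset_right
    rw [← hG] at h1
    have hst : Strong R p (i + 1) D := by
      rw [hD]; unfold lev; rw [if_pos (by omega)]; exact big_strong R p (i + 1)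
    have h2 := hst (G ∪ F) (union_subset hGD hF)
    have h3 := R.submod G F
    rw [inter_comm] at h3
    -- density on D \ (G ∪ F)
    have h4 : ∑ e ∈ D \ (G ∪ F), dens R p m e = (∑ e ∈ D \ (G ∪ F), (p e : ℚ)) / ((i : ℚ) + 1) := by
      rw [sum_div]
      apply sum_congr rfl
      intro e he
      have he1 := (mem_sdiff.1 he).1
      have he2 : e ∉ G := fun h => (mem_sdiff.1 he).2 (mem_union_left _ h)
      rw [hD, mem_lev_iff] at he1
      rw [hG, mem_lev_iff] at he2
      have : nl R p m e = i + 1 := by omega
      unfold dens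
      rw [this]; push_cast; rfl
    have h5 : D \ F = (D \ (G ∪ F)) ∪ (G \ (F ∩ G)) := by
      ext e
      have := @hGD e
      simp only [mem_union, mem_sdiff, mem_inter]
      tauto
    have h6 : ∑ e ∈ D \ F, dens R p m e
        = ∑ e ∈ D \ (G ∪ F), dens R p m e + ∑ e ∈ G \ (F ∩ G), dens R p m e := by
      rw [h5, sum_union]
      rw [Finset.disjoint_left]
      intro e he he'
      exact (mem_sdiff.1 he).2 (mem_union_left _ (mem_sdiff.1 he').1)
    have hpos : (0 : ℚ) < (i : ℚ) + 1 := by positivity
    have h7 : 2 * (R.r D : ℚ) - 2 * (R.r (G ∪ F) : ℚ) ≤ ∑ e ∈ D \ (G ∪ F), dens R p m e := by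
      rw [h4, le_div_iff₀ hpos]
      have h8 : ((2 * (i + 1) * R.r D : ℕ) : ℚ) ≤ ((2 * (i + 1) * R.r (G ∪ F) + ∑ e ∈ D \ (G ∪ F), p e : ℕ) : ℚ) := by
        exact_mod_cast h2
      push_cast at h8
      nlinarith
    have h9 : (R.r (G ∪ F) : ℚ) + (R.r (F ∩ G) : ℚ) ≤ R.r G + R.r F := by exact_mod_cast h3
    rw [h6]
    linarith

section vec

variable {W : Type} [AddCommGroup W] [Module (ZMod 2) W] [Module.Finite (ZMod 2) W]

theorem main_vec (x : E → W) (p : E → ℕ) (hp : par x p = 0)
    (H : ∀ e, 2 ≤ p e → ∃ D, e ∈ D ∧ Strong (vr x) p (p e) D) : Dec x p := by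
  classical
  set R := vr x with hR
  set m := univ.sup p with hm
  have hpm : ∀ e, p e ≤ m := fun e => le_sup (mem_univ e)
  rcases Nat.eq_zero_or_pos m with h0 | hmpos
  · refine ⟨[], by simp, ?_⟩
    intro e
    have := hpm e
    simp; omega
  -- levels of the elements
  have hL : ∀ e, 2 ≤ p e → p e ≤ nl R p m e := by
    intro e he
    have h1 : e ∈ lev R p m (p e - 1) := by
      unfold lev
      have := hpm e
      rw [if_pos (by omega), mem_big]
      obtain ⟨D, hD1, hD2⟩ := H e he
      exact ⟨D, by rwa [Nat.sub_add_cancel (by omega)], hD1⟩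
    rw [mem_lev_iff] at h1
    omega
  have hL' : ∀ e, 1 ≤ nl R p m e → p e ≤ nl R p m e := by
    intro e he
    by_cases h : 2 ≤ p e
    · exact hL e h
    · omega
  obtain ⟨X, hX1, hX2⟩ := pack_card R (lev R p m) m p (dens R p m)
    (fun i hi F hF => dens_ineq R p m (m - i) i (by omega) F hF)
    (by
      intro e
      show (nl R p m e : ℚ) * ((p e : ℚ) / (nl R p m e : ℚ)) ≤ p e
      by_cases h : nl R p m e = 0
      · rw [h]; simp
      · have : (nl R p m e : ℚ) ≠ 0 := by exact_mod_cast h
        rw [mul_div_cancel₀ _ this])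
    (by
      intro e
      show (p e : ℚ) / (nl R p m e : ℚ) ≤ 1
      by_cases h : nl R p m e = 0
      · rw [h]; simp
      · have h1 : (0 : ℚ) < (nl R p m e : ℚ) := by exact_mod_cast Nat.pos_of_ne_zero h
        rw [div_le_one h1]
        exact_mod_cast hL' e (by omega))
  have hsplit : ∀ i, ∃ a b : Finset E, i < m → a ∪ b = X i ∧ Disjoint a b ∧ (X i).card ≤ R.r a + R.r b := by
    intro i
    by_cases hi : i < m
    · obtain ⟨a, b, h⟩ := split R (X i) (hX1 i hi).2.1
      exact ⟨a, b, fun _ => h⟩
    · exact ⟨∅, ∅, fun h => absurd h hi⟩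
  choose a b hab using hsplit
  -- the sets I'_e
  have hI : ∀ e, ∃ I : Finset ℕ, 1 ≤ nl R p m e →
      (range m).filter (fun i => e ∈ X i) ⊆ I ∧ I ⊆ range (nl R p m e) ∧ I.card = p e := by
    intro e
    by_cases h : 1 ≤ nl R p m e
    · have h1 : (range m).filter (fun i => e ∈ X i) ⊆ range (nl R p m e) := by
        intro i hi
        rw [mem_filter, mem_range] at hi
        rw [mem_range, ← mem_lev_iff]
        exact (hX1 i hi.1).1 hi.2
      obtain ⟨I, hI1, hI2, hI3⟩ := exists_subsuperset_card_eq h1 (hX2 e)
        (by rw [card_range]; exact hL' e h)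
      exact ⟨I, fun _ => ⟨hI1, hI2, hI3⟩⟩
    · exact ⟨∅, fun h' => absurd h' h⟩
  choose I hI using hI
  set Y : ℕ → Finset E := fun i => univ.filter (fun e => 1 ≤ nl R p m e ∧ i ∈ I e) with hY
  set Z : Finset E := univ.filter (fun e => nl R p m e = 0 ∧ p e = 1) with hZ
  set a' : ℕ → Finset E := fun i => if i < m then a i else ∅ with ha'
  set b' : ℕ → Finset E := fun i => if i < m then b i else ∅ with hb'
  have hXY : ∀ i < m, X i ⊆ Y i := by
    intro i hi e he
    have h1 : 1 ≤ nl R p m e := by
      have := (hX1 i hi).1 he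
      rw [mem_lev_iff] at this
      omega
    rw [hY, mem_filter]
    exact ⟨mem_univ _, h1, (hI e h1).1 (mem_filter.2 ⟨mem_range.2 hi, he⟩)⟩
  have hYl : ∀ i, Y i ⊆ lev R p m i := by
    intro i e he
    rw [hY, mem_filter] at he
    rw [mem_lev_iff]
    exact mem_range.1 ((hI e he.2.1).2.1 he.2.2)
  have hspan : ∀ i < m, sp x (a i) = sp x (lev R p m i) ∧ sp x (b i) = sp x (lev R p m i) := by
    intro i hi
    obtain ⟨h1, h2, h3⟩ := hab i hi
    have haX : a i ⊆ X i := by rw [← h1]; exact subset_union_left
    have hbX : b i ⊆ X i := by rw [← h1]; exact subset_union_right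
    have haE := haX.trans (hX1 i hi).1
    have hbE := hbX.trans (hX1 i hi).1
    have r1 := R.mono haE
    have r2 := R.mono hbE
    have r3 := (hX1 i hi).2.2
    exact ⟨sp_eq_of_rank x haE (by show R.r _ ≤ R.r _; omega),
      sp_eq_of_rank x hbE (by show R.r _ ≤ R.r _; omega)⟩
  have hempty : ∀ i, ¬ i < m → lev R p m i = ∅ := by
    intro i hi; unfold lev; rw [if_neg hi]
  have hLay : Lay x (lev R p m) Y a' b' Z := by
    refine ⟨fun i j h => lev_anti R p m i j h, ?_, ?_, hYl, ?_, ?_, ?_, ?_⟩
    · intro i
      by_cases hi : i < m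
      · simp only [ha', if_pos hi]
        refine subset_trans ?_ (hXY i hi)
        rw [← (hab i hi).1]; exact subset_union_left
      · simp only [ha', if_neg hi]; exact empty_subset _
    · intro i
      by_cases hi : i < m
      · simp only [hb', if_pos hi]
        refine subset_trans ?_ (hXY i hi)
        rw [← (hab i hi).1]; exact subset_union_right
      · simp only [hb', if_neg hi]; exact empty_subset _
    · intro i
      by_cases hi : i < m
      · simp only [ha', hb', if_pos hi]; exact (hab i hi).2.1
      · simp only [ha', if_neg hi]; exact disjoint_empty_left _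
    · intro i
      by_cases hi : i < m
      · simp only [ha', if_pos hi]; exact (hspan i hi).1
      · simp only [ha', if_neg hi]; rw [hempty i hi]
    · intro i
      by_cases hi : i < m
      · simp only [hb', if_pos hi]; exact (hspan i hi).2
      · simp only [hb', if_neg hi]; rw [hempty i hi]
    · rw [Finset.disjoint_left]
      intro e he he'
      rw [hZ, mem_filter] at he
      rw [mem_lev_iff] at he'
      omega
  have hpw : ∀ e, pw Y Z m ∅ e = p e := by
    intro e
    have h1 : ∑ i ∈ range m, ind (Y i) e = ((range m).filter (fun i => e ∈ Y i)).card := by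
      simp only [ind]
      rw [card_filter]
    simp only [pw]
    rw [h1]
    have h2 : ind (∅ : Finset E) e = 0 := by simp [ind]
    rw [h2]
    by_cases h : 1 ≤ nl R p m e
    · have h3 : e ∉ Z := by
        rw [hZ, mem_filter]; omega
      have h4 : (range m).filter (fun i => e ∈ Y i) = I e := by
        ext i
        rw [mem_filter, mem_range]
        constructor
        · intro hi
          have := hi.2
          rw [hY, mem_filter] at this
          exact this.2.2
        · intro hi
          refine ⟨?_, by rw [hY, mem_filter]; exact ⟨mem_univ _, h, hi⟩⟩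
          have h5 := mem_range.1 ((hI e h).2.1 hi)
          by_contra hcon
          have h6 : e ∈ lev R p m i := (mem_lev_iff R p m i e).2 h5
          rw [hempty i hcon] at h6
          simp at h6
      rw [h4, (hI e h).2.2, ind_zero h3]; rfl
    · have h0 : nl R p m e = 0 := by omega
      have h3 : (range m).filter (fun i => e ∈ Y i) = ∅ := by
        rw [filter_eq_empty_iff]
        intro i _ hi
        rw [hY, mem_filter] at hi
        omega
      rw [h3]
      have h4 : p e ≤ 1 := by
        by_contra hcon
        have := hL e (by omega)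
        omega
      by_cases h5 : p e = 1
      · have : e ∈ Z := by rw [hZ, mem_filter]; exact ⟨mem_univ _, h0, h5⟩
        rw [ind_pos this, h5]; simp
      · have : e ∉ Z := by rw [hZ, mem_filter]; tauto
        rw [ind_zero this]; simp; omega
  have hfun : pw Y Z m ∅ = p := funext hpw
  have := lay_dec hLay m (by rw [hfun]; exact hp)
  rw [hfun] at this
  exact this

end vec

end Pool.Agent.Helper97.CC
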