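import Pool.Agent.Helper97.CC.Strong

/-!
Decompositions of a weight into sets with prescribed sums.
-/

set_option autoImplicit false
set_option linter.unusedSectionVars false

namespace Pool.Agent.Helper97.CC

open Finset Pool.Agent.Helper55.Rota

variable {E : Type} [Fintype E] [DecidableEq E] {W : Type} [AddCommGroup W] [Module (ZMod 2) W]

/-- `w` is the sum of sets with the prescribed sums -/
def DecT (x : E → W) (w : E → ℕ) (ys : List W) : Prop :=
  ∃ L : List (Finset E), L.map (fun F => ∑ e ∈ F, x e) = ys ∧ ∀ e, w e = L.countP (fun F => e ∈ F)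

lemma DecT.add {x : E → W} {w1 w2 : E → ℕ} {y1 y2 : List W} (h1 : DecT x w1 y1) (h2 : DecT x w2 y2) :
    DecT x (fun e => w1 e + w2 e) (y1 ++ y2) := by
  obtain ⟨L1, hL1, hc1⟩ := h1
  obtain ⟨L2, hL2, hc2⟩ := h2
  refine ⟨L1 ++ L2, ?_, ?_⟩
  · rw [List.map_append, hL1, hL2]
  · intro e
    rw [List.countP_append, ← hc1 e, ← hc2 e]

lemma DecT.congr {x : E → W} {w w' : E → ℕ} {ys : List W} (h : DecT x w ys) (hw : ∀ e, w' e = w e) :
    DecT x w' ys := by
  have : w' = w := funext hw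
  rw [this]; exact h

/-- LAYER LEMMA with targets -/
theorem layerT (x : E → W) (w : E → ℕ) (hw : ∀ e, w e ≤ 2) (y1 y2 y3 : W)
    (hsum : par x w = y1 + y2 + y3)
    (a b : Finset E) (hab : Disjoint a b) (ha : ∀ e ∈ a, 1 ≤ w e) (hb : ∀ e ∈ b, 1 ≤ w e)
    (hsp : sp x a = sp x b) (h2 : ∀ e, w e = 2 → x e ∈ sp x a)
    (hy1 : y1 ∈ sp x a) (hy3 : y3 ∈ sp x a) :
    DecT x w [y1, y2, y3] := by
  classical
  set W1 := univ.filter (fun e => w e = 1) with hW1
  set W2 := univ.filter (fun e => w e = 2) with hW2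
  set H := univ.filter (fun e => 1 ≤ w e) with hH
  have e1 : ∑ e ∈ W1, x e = y1 + y2 + y3 := by rw [← hsum]; exact (sum_w x w hw).symm
  have hHsum : ∑ e ∈ H, x e = (y1 + y2 + y3) + ∑ e ∈ W2, x e := by
    have : H = symmDiff W1 W2 := by
      ext e
      simp only [hH, hW1, hW2, mem_symmDiff, mem_filter, mem_univ, true_and]
      have := hw e
      omega
    rw [this, sum_symm, e1]
  have haH : a ⊆ H := fun e he => by simp [hH, ha e he]
  have hbH : b ⊆ H := fun e he => by simp [hH, hb e he]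
  have h2' : ∑ e ∈ W2, x e ∈ sp x a := Submodule.sum_mem _ (fun e he => h2 e (by simpa [hW2] using he))
  -- first set
  have hc1 : (y2 + y3) + ∑ e ∈ H \ a, x e ∈ sp x a := by
    have h3 : ∑ e ∈ H \ a, x e + ∑ e ∈ a, x e = ∑ e ∈ H, x e := sum_sdiff haH
    have h4 : ∑ e ∈ H \ a, x e = ∑ e ∈ H, x e - ∑ e ∈ a, x e := by rw [← h3]; abel
    have h5 : (y2 + y3) + ∑ e ∈ H \ a, x e
        = y1 + ((y2 + y2) + (y3 + y3)) + ∑ e ∈ W2, x e - ∑ e ∈ a, x e := by
      rw [h4, hHsum]; abel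
    rw [h5, add_self' y2, add_self' y3, add_zero, add_zero]
    exact Submodule.sub_mem _ (Submodule.add_mem _ hy1 h2') (sum_mem_sp x (Subset.refl a))
  obtain ⟨K, hKa, hK⟩ := exists_sub x a _ hc1
  obtain ⟨K', hKb, hK'⟩ := exists_sub x b ((y1 + y3) + ∑ e ∈ a, x e)
    (by rw [← hsp]; exact Submodule.add_mem _ (Submodule.add_mem _ hy1 hy3) (sum_mem_sp x (Subset.refl a)))
  set C1 := symmDiff (H \ a) K with hC1
  set C2 := symmDiff a K' with hC2
  have hE1 : ∑ e ∈ C1, x e = y2 + y3 := by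
    rw [hC1, sum_symm, hK]
    have := add_self' (∑ e ∈ H \ a, x e)
    calc ∑ e ∈ H \ a, x e + (y2 + y3 + ∑ e ∈ H \ a, x e)
        = y2 + y3 + (∑ e ∈ H \ a, x e + ∑ e ∈ H \ a, x e) := by abel
      _ = y2 + y3 := by rw [this, add_zero]
  have hE2 : ∑ e ∈ C2, x e = y1 + y3 := by
    rw [hC2, sum_symm, hK']
    have := add_self' (∑ e ∈ a, x e)
    calc ∑ e ∈ a, x e + (y1 + y3 + ∑ e ∈ a, x e)
        = y1 + y3 + (∑ e ∈ a, x e + ∑ e ∈ a, x e) := by abel
      _ = y1 + y3 := by rw [this, add_zero]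
  refine ⟨[symmDiff C1 W1, symmDiff C2 W1, symmDiff (symmDiff C1 C2) W1], ?_, ?_⟩
  · have s1 : ∑ e ∈ symmDiff C1 W1, x e = y1 := by
      rw [sum_symm, hE1, e1]
      calc y2 + y3 + (y1 + y2 + y3) = y1 + (y2 + y2) + (y3 + y3) := by abel
        _ = y1 := by rw [add_self' y2, add_self' y3, add_zero, add_zero]
    have s2 : ∑ e ∈ symmDiff C2 W1, x e = y2 := by
      rw [sum_symm, hE2, e1]
      calc y1 + y3 + (y1 + y2 + y3) = y2 + (y1 + y1) + (y3 + y3) := by abel
        _ = y2 := by rw [add_self' y1, add_self' y3, add_zero, add_zero]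
    have s3 : ∑ e ∈ symmDiff (symmDiff C1 C2) W1, x e = y3 := by
      rw [sum_symm, sum_symm, hE1, hE2, e1]
      calc y2 + y3 + (y1 + y3) + (y1 + y2 + y3) = y3 + (y1 + y1) + (y2 + y2) + (y3 + y3) := by abel
        _ = y3 := by rw [add_self' y1, add_self' y2, add_self' y3, add_zero, add_zero, add_zero]
    simp only [List.map_cons, List.map_nil, s1, s2, s3]
  · intro e
    have hwe := hw e
    have hab' : e ∈ a → e ∉ b := fun h h' => (Finset.disjoint_left.1 hab) h h'
    have hKa' : e ∈ K → e ∈ a := fun h => hKa h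
    have hKb' : e ∈ K' → e ∈ b := fun h => hKb h
    have haH' : e ∈ a → 1 ≤ w e := ha e
    have hbH' : e ∈ b → 1 ≤ w e := hb e
    have m1 : e ∈ C1 ↔ (1 ≤ w e ∧ e ∉ a) ∨ e ∈ K := by
      rw [hC1, mem_symm_disj (Finset.disjoint_left.2 (fun z hz hz' => (mem_sdiff.1 hz).2 (hKa hz')))]
      simp [hH]
    have m2 : e ∈ C2 ↔ e ∈ a ∨ e ∈ K' := by
      rw [hC2, mem_symm_disj (Finset.disjoint_left.2
        (fun z hz hz' => (Finset.disjoint_left.1 hab) hz (hKb hz')))]
    have m3 : e ∈ W1 ↔ w e = 1 := by simp [hW1]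
    have hcnt : ∀ (A B C : Finset E), List.countP (fun F => decide (e ∈ F)) [A, B, C]
        = (if e ∈ A then 1 else 0) + (if e ∈ B then 1 else 0) + (if e ∈ C then 1 else 0) := by
      intro A B C
      by_cases h1 : e ∈ A <;> by_cases h2 : e ∈ B <;> by_cases h3 : e ∈ C <;> simp [h1, h2, h3]
    rw [hcnt]
    have n1 : e ∈ symmDiff C1 W1 ↔ ¬ (e ∈ C1 ↔ w e = 1) := by rw [mem_symm_iff, m3]
    have n2 : e ∈ symmDiff C2 W1 ↔ ¬ (e ∈ C2 ↔ w e = 1) := by rw [mem_symm_iff, m3]
    have n3 : e ∈ symmDiff (symmDiff C1 C2) W1 ↔ ¬ (¬ (e ∈ C1 ↔ e ∈ C2) ↔ w e = 1) := by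
      rw [mem_symm_iff, mem_symm_iff, m3]
    rw [if_congr n1 rfl rfl, if_congr n2 rfl rfl, if_congr n3 rfl rfl]
    have k1 : w e = 0 → e ∉ C1 ∧ e ∉ C2 := by
      intro h0
      refine ⟨?_, ?_⟩
      · intro h
        rcases m1.1 h with h | h
        · omega
        · have := haH' (hKa' h); omega
      · intro h
        rcases m2.1 h with h | h
        · have := haH' h; omega
        · have := hbH' (hKb' h); omega
    have k2 : 1 ≤ w e → e ∈ C1 ∨ e ∈ C2 := by
      intro h1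
      by_cases h : e ∈ a
      · exact Or.inr (m2.2 (Or.inl h))
      · exact Or.inl (m1.2 (Or.inl ⟨h1, h⟩))
    clear hcnt n1 n2 n3 m1 m2 m3
    have hcase : w e = 0 ∨ w e = 1 ∨ w e = 2 := by omega
    rcases hcase with h | h | h
    · obtain ⟨q1, q2⟩ := k1 h
      simp [h, q1, q2]
    · rcases k2 (by omega) with q | q
      · by_cases q2 : e ∈ C2 <;> simp [h, q, q2]
      · by_cases q1 : e ∈ C1 <;> simp [h, q, q1]
    · rcases k2 (by omega) with q | q
      · by_cases q2 : e ∈ C2 <;> simp [h, q, q2]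
      · by_cases q1 : e ∈ C1 <;> simp [h, q, q1]

lemma flipT (x : E → W) (u : E → ℕ) (a : Finset E) (z : W) (hs : ∀ e ∈ a, 1 ≤ u e)
    (hm : par x u + z ∈ sp x a) :
    ∃ j ⊆ a, ∃ w : E → ℕ, (∀ e, u e = w e + ind j e) ∧ par x w = z := by
  obtain ⟨j, hj, hsum⟩ := exists_sub x a _ hm
  refine ⟨j, hj, fun e => u e - ind j e, ?_, ?_⟩
  · intro e
    by_cases h : e ∈ j
    · have := hs e (hj h)
      rw [ind_pos h]; simp only [ind_pos h]; omega
    · simp [ind_zero h]
  · have h1 : par x u = par x (fun e => u e - ind j e) + par x (ind j) := by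
      rw [← par_add]
      congr 1
      funext e
      by_cases h : e ∈ j
      · have := hs e (hj h)
        simp only [ind_pos h]; omega
      · simp [ind_zero h]
    rw [par_ind, hsum] at h1
    have h2 : (par x (fun e => u e - ind j e) + z) + par x u = 0 + par x u := by
      rw [zero_add]
      calc (par x (fun e => u e - ind j e) + z) + par x u
          = par x (fun e => u e - ind j e) + (par x u + z) := by abel
        _ = par x u := h1.symm
    have h3 := add_right_cancel h2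
    calc par x (fun e => u e - ind j e) = par x (fun e => u e - ind j e) + (z + z) := by
          rw [add_self' z, add_zero]
      _ = (par x (fun e => u e - ind j e) + z) + z := by abel
      _ = z := by rw [h3, zero_add]

/-- three sets give two layers, with targets; all spans are the same -/
theorem tripleT (x : E → W) (S : Submodule (ZMod 2) W) (Y1 Y2 T J A1 B1 A2 B2 a b : Finset E)
    (z1 z2 z3 z4 z5 z6 : W) (hz1 : z1 ∈ S) (hz2 : z2 ∈ S) (hz3 : z3 ∈ S) (hz4 : z4 ∈ S) (hz5 : z5 ∈ S)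
    (hz6 : z6 ∈ S)
    (hA1 : A1 ⊆ Y1) (hB1 : B1 ⊆ Y1) (hAB1 : Disjoint A1 B1) (sA1 : sp x A1 = S) (sB1 : sp x B1 = S)
    (hA2 : A2 ⊆ Y2) (hB2 : B2 ⊆ Y2) (hAB2 : Disjoint A2 B2) (sA2 : sp x A2 = S) (sB2 : sp x B2 = S)
    (ha : a ⊆ T) (hb : b ⊆ T) (hab : Disjoint a b) (sa : sp x a = S) (sb : sp x b = S)
    (hY1 : ∀ e ∈ Y1, x e ∈ S) (hY2 : ∀ e ∈ Y2, x e ∈ S) (hT : ∀ e ∈ T, x e ∈ S) (hJ : ∀ e ∈ J, x e ∈ S) :
    ∃ (w1 w2 : E → ℕ) (J' : Finset E), J' ⊆ a ∪ b ∧ DecT x w1 [z1, z2, z3] ∧ DecT x w2 [z4, z5, z6] ∧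
      par x w1 = z1 + z2 + z3 ∧ par x w2 = z4 + z5 + z6 ∧
      ∀ e, ind Y1 e + ind Y2 e + ind T e + ind J e = w1 e + w2 e + ind J' e := by
  classical
  set J1 := J \ (Y1 ∩ a) with hJ1d
  set J2 := J ∩ (Y1 ∩ a) with hJ2d
  have iJ : ∀ e, ind J e = ind J1 e + ind J2 e := by
    intro e
    by_cases h : e ∈ J <;> by_cases h' : e ∈ Y1 ∩ a <;> simp [ind, hJ1d, hJ2d, h, h']
  have iT : ∀ e, ind T e = ind a e + ind (T \ a) e := by
    intro e
    by_cases h : e ∈ a
    · simp [ind, h, ha h]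
    · by_cases h' : e ∈ T <;> simp [ind, h, h']
  have hJ1J : J1 ⊆ J := sdiff_subset
  have hJ2J : J2 ⊆ J := inter_subset_left
  have haS : ∀ e ∈ a, x e ∈ S := fun e he => hT e (ha he)
  -- first layer
  set u1 : E → ℕ := fun e => ind Y1 e + ind a e + ind J1 e with hu1
  have m1 : par x u1 ∈ S := by
    apply par_mem
    intro e he
    by_cases h : e ∈ Y1
    · exact hY1 e h
    by_cases h' : e ∈ a
    · exact haS e h'
    by_cases h'' : e ∈ J1
    · exact hJ e (hJ1J h'')
    · exact absurd (by simp [hu1, ind_zero h, ind_zero h', ind_zero h'']) he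
  obtain ⟨j1, hj1, w1, hw1, hp1⟩ := flipT x u1 a (z1 + z2 + z3)
    (fun e he => by simp only [hu1, ind_pos he]; omega)
    (by rw [sa]; exact S.add_mem m1 (S.add_mem (S.add_mem hz1 hz2) hz3))
  have u1le : ∀ e, u1 e ≤ 2 := by
    intro e
    have i1 := ind_le Y1 e
    have i2 := ind_le a e
    have i3 := ind_le J1 e
    by_cases h : e ∈ J1
    · have h' : e ∉ Y1 ∩ a := (mem_sdiff.1 h).2
      rw [mem_inter, not_and_or] at h'
      rcases h' with h' | h'
      · simp only [hu1, ind_zero h']; omega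
      · simp only [hu1, ind_zero h']; omega
    · simp only [hu1, ind_zero h]; omega
  have w1pos : ∀ e ∈ Y1, 1 ≤ w1 e := by
    intro e he
    have h1 := hw1 e
    by_cases h : e ∈ j1
    · simp only [hu1, ind_pos he, ind_pos (hj1 h), ind_pos h] at h1; omega
    · simp only [hu1, ind_pos he, ind_zero h] at h1; omega
  have w1two : ∀ e, w1 e = 2 → x e ∈ sp x A1 := by
    intro e he
    rw [sA1]
    have h1 := hw1 e
    by_cases h : e ∈ Y1
    · exact hY1 e h
    by_cases h' : e ∈ J1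
    · exact hJ e (hJ1J h')
    exfalso
    have := ind_le a e
    simp only [hu1, ind_zero h, ind_zero h'] at h1; omega
  have d1 : DecT x w1 [z1, z2, z3] := by
    refine layerT x w1 (fun e => ?_) z1 z2 z3 hp1 A1 B1 hAB1 (fun e he => w1pos e (hA1 he))
      (fun e he => w1pos e (hB1 he)) (by rw [sA1, sB1]) w1two (by rw [sA1]; exact hz1) (by rw [sA1]; exact hz3)
    have := u1le e
    have := hw1 e
    omega
  -- second layer
  set v : E → ℕ := fun e => ind Y2 e + ind (T \ a) e + ind J2 e with hv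
  set j1' := j1.filter (fun e => v e ≤ 1) with hj1'
  set j1'' := j1.filter (fun e => ¬ v e ≤ 1) with hj1''
  have ij : ∀ e, ind j1 e = ind j1' e + ind j1'' e := by
    intro e
    by_cases h : e ∈ j1 <;> by_cases h' : v e ≤ 1 <;> simp [ind, hj1', hj1'', h, h']
  set u2 : E → ℕ := fun e => v e + ind j1' e with hu2
  have vle : ∀ e, v e ≤ 2 := by
    intro e
    have i1 := ind_le Y2 e
    have i2 := ind_le (T \ a) e
    have i3 := ind_le J2 e
    by_cases h : e ∈ J2
    · have h' : e ∈ a := (mem_inter.1 (mem_inter.1 h).2).2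
      have h'' : e ∉ T \ a := fun h => (mem_sdiff.1 h).2 h'
      simp only [hv, ind_zero h'']; omega
    · simp only [hv, ind_zero h]; omega
  have u2le : ∀ e, u2 e ≤ 2 := by
    intro e
    have := vle e
    have i1 := ind_le j1' e
    by_cases h : e ∈ j1'
    · have := (mem_filter.1 h).2
      simp only [hu2]; omega
    · simp only [hu2, ind_zero h]; omega
  have hj1a : ∀ e ∈ j1', e ∈ a := fun e he => hj1 (mem_filter.1 he).1
  have hbT : b ⊆ T \ a := fun e he => mem_sdiff.2 ⟨hb he, fun h => (Finset.disjoint_left.1 hab) h he⟩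
  have m2 : par x u2 ∈ S := by
    apply par_mem
    intro e he
    by_cases h : e ∈ Y2
    · exact hY2 e h
    by_cases h' : e ∈ T \ a
    · exact hT e (mem_sdiff.1 h').1
    by_cases h'' : e ∈ J2
    · exact hJ e (hJ2J h'')
    by_cases h3 : e ∈ j1'
    · exact haS e (hj1a e h3)
    · exact absurd (by simp [hu2, hv, ind_zero h, ind_zero h', ind_zero h'', ind_zero h3]) he
  obtain ⟨j2, hj2, w2, hw2, hp2⟩ := flipT x u2 b (z4 + z5 + z6)
    (fun e he => by simp only [hu2, hv, ind_pos (hbT he)]; omega)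
    (by rw [sb]; exact S.add_mem m2 (S.add_mem (S.add_mem hz4 hz5) hz6))
  have w2pos : ∀ e ∈ Y2, 1 ≤ w2 e := by
    intro e he
    have h1 := hw2 e
    by_cases h : e ∈ j2
    · simp only [hu2, hv, ind_pos he, ind_pos (hbT (hj2 h)), ind_pos h] at h1; omega
    · simp only [hu2, hv, ind_pos he, ind_zero h] at h1; omega
  have w2two : ∀ e, w2 e = 2 → x e ∈ sp x A2 := by
    intro e he
    rw [sA2]
    have h1 := hw2 e
    by_cases h : e ∈ Y2
    · exact hY2 e h
    by_cases h' : e ∈ J2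
    · exact hJ e (hJ2J h')
    exfalso
    by_cases h3 : e ∈ j1'
    · have h4 : e ∉ T \ a := fun h => (mem_sdiff.1 h).2 (hj1a e h3)
      have := ind_le j1' e
      simp only [hu2, hv, ind_zero h, ind_zero h', ind_zero h4] at h1; omega
    · have := ind_le (T \ a) e
      simp only [hu2, hv, ind_zero h, ind_zero h', ind_zero h3] at h1; omega
  have d2 : DecT x w2 [z4, z5, z6] := by
    refine layerT x w2 (fun e => ?_) z4 z5 z6 hp2 A2 B2 hAB2 (fun e he => w2pos e (hA2 he))
      (fun e he => w2pos e (hB2 he)) (by rw [sA2, sB2]) w2two (by rw [sA2]; exact hz4) (by rw [sA2]; exact hz6)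
    have := u2le e
    have := hw2 e
    omega
  have hdis : Disjoint j2 j1'' := Finset.disjoint_left.2 (fun e he he' =>
    (Finset.disjoint_left.1 hab) (hj1 (mem_filter.1 he').1) (hj2 he))
  refine ⟨w1, w2, j2 ∪ j1'', ?_, d1, d2, hp1, hp2, ?_⟩
  · intro e he
    rcases mem_union.1 he with h | h
    · exact mem_union_right _ (hj2 h)
    · exact mem_union_left _ (hj1 (mem_filter.1 h).1)
  · intro e
    have q1 := hw1 e
    have q2 := hw2 e
    have q3 := iJ e
    have q4 := iT e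
    have q5 := ij e
    have q6 : ind (j2 ∪ j1'') e = ind j2 e + ind j1'' e := by
      by_cases h : e ∈ j2
      · have h' : e ∉ j1'' := (Finset.disjoint_left.1 hdis) h
        simp [ind, h, h']
      · by_cases h' : e ∈ j1'' <;> simp [ind, h, h']
    simp only [hu1, hu2, hv] at q1 q2
    omega

end Pool.Agent.Helper97.CC
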